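import Mathlib

/-!
# Pivoting on the vertices of a polytope `{y : ⟨x_i, y⟩ ≤ 1}`
-/

set_option autoImplicit false

open Finset Matrix

namespace Pool.Agent.Helper66.CapCover

variable {n N : ℕ}

/-- The matrix whose rows are `x (t b)`. -/
def mat (x : Fin N → Fin n → ℝ) (t : Fin n → Fin N) : Matrix (Fin n) (Fin n) ℝ :=
  Matrix.of fun b => x (t b)

/-- The point with `⟨x (t b), y⟩ = 1` for all `b`. -/
noncomputable def vert (x : Fin N → Fin n → ℝ) (t : Fin n → Fin N) : Fin n → ℝ :=
  (mat x t)⁻¹ *ᵥ (fun _ => 1)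

/-- `t` is a feasible basis. -/
def Feas (x : Fin N → Fin n → ℝ) (t : Fin n → Fin N) : Prop :=
  (mat x t).det ≠ 0 ∧ ∀ j, x j ⬝ᵥ vert x t ≤ 1

/-- The direction orthogonal to all `x (t b)`, `b ≠ a`. -/
def dir (x : Fin N → Fin n → ℝ) (t : Fin n → Fin N) (a : Fin n) : Fin n → ℝ :=
  fun c => (mat x t).adjugate c a

theorem mat_update (x : Fin N → Fin n → ℝ) (t : Fin n → Fin N) (a : Fin n) (i : Fin N) :
    mat x (Function.update t a i) = (mat x t).updateRow a (x i) := by
  ext b c
  by_cases h : b = a
  · subst h; simp [mat]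
  · simp [mat, h]

theorem det_updateRow_eq (A : Matrix (Fin n) (Fin n) ℝ) (a : Fin n) (r : Fin n → ℝ) :
    (A.updateRow a r).det = r ⬝ᵥ (fun c => A.adjugate c a) := by
  rw [← Matrix.cramer_transpose_apply, Matrix.cramer_eq_adjugate_mulVec, ← Matrix.adjugate_transpose]
  simp only [Matrix.mulVec, dotProduct, Matrix.transpose_apply]
  exact Finset.sum_congr rfl fun c _ => mul_comm _ _

theorem det_update (x : Fin N → Fin n → ℝ) (t : Fin n → Fin N) (a : Fin n) (i : Fin N) :
    (mat x (Function.update t a i)).det = x i ⬝ᵥ dir x t a := by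
  rw [mat_update, det_updateRow_eq]; rfl

theorem dir_update (x : Fin N → Fin n → ℝ) (t : Fin n → Fin N) (a : Fin n) (i : Fin N) :
    dir x (Function.update t a i) a = dir x t a := by
  funext c
  unfold dir
  rw [Matrix.adjugate_apply, Matrix.adjugate_apply, mat_update, Matrix.updateRow_idem]

theorem dir_orth (x : Fin N → Fin n → ℝ) (t : Fin n → Fin N) (a b : Fin n) (h : b ≠ a) :
    x (t b) ⬝ᵥ dir x t a = 0 := by
  rw [← det_update]
  apply Matrix.det_zero_of_row_eq h
  funext c
  simp [mat, h]

theorem dir_self (x : Fin N → Fin n → ℝ) (t : Fin n → Fin N) (a : Fin n) :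
    x (t a) ⬝ᵥ dir x t a = (mat x t).det := by
  rw [← det_update, Function.update_eq_self]

theorem vert_tight (x : Fin N → Fin n → ℝ) (t : Fin n → Fin N) (h : (mat x t).det ≠ 0)
    (b : Fin n) : x (t b) ⬝ᵥ vert x t = 1 := by
  have h1 : mat x t *ᵥ vert x t = fun _ => 1 := by
    unfold vert
    rw [Matrix.mulVec_mulVec, Matrix.mul_nonsing_inv _ (isUnit_iff_ne_zero.2 h), Matrix.one_mulVec]
  exact congrFun h1 b

theorem eq_zero_of_orth (x : Fin N → Fin n → ℝ) (t : Fin n → Fin N) (h : (mat x t).det ≠ 0)
    (y : Fin n → ℝ) (hy : ∀ b, x (t b) ⬝ᵥ y = 0) : y = 0 := by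
  have h1 : mat x t *ᵥ y = 0 := funext hy
  exact Matrix.eq_zero_of_mulVec_eq_zero h h1

theorem vert_unique (x : Fin N → Fin n → ℝ) (t : Fin n → Fin N) (h : (mat x t).det ≠ 0)
    (y : Fin n → ℝ) (hy : ∀ b, x (t b) ⬝ᵥ y = 1) : y = vert x t := by
  have := eq_zero_of_orth x t h (y - vert x t) (fun b => by
    rw [dotProduct_sub, hy b, vert_tight x t h b, sub_self])
  exact sub_eq_zero.1 this

theorem injective_of_det (x : Fin N → Fin n → ℝ) (t : Fin n → Fin N) (h : (mat x t).det ≠ 0) :
    Function.Injective t := by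
  intro a b hab
  by_contra hne
  exact h (Matrix.det_zero_of_row_eq hne (by funext c; simp [mat, hab]))

/-- For every feasible basis and position `a` there is a feasible basis on the other side. -/
theorem exists_other_side (x : Fin N → Fin n → ℝ)
    (hpos : ∀ y : Fin n → ℝ, y ≠ 0 → ∃ i, 0 < x i ⬝ᵥ y)
    (t : Fin n → Fin N) (a : Fin n) (ht : Feas x t) :
    ∃ i, Feas x (Function.update t a i) ∧
      (mat x t).det * (mat x (Function.update t a i)).det < 0 := by
  classical
  set D := (mat x t).det with hD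
  have hD0 : D ≠ 0 := ht.1
  -- direction in which the constraint `t a` decreases
  set d : Fin n → ℝ := (-D) • dir x t a with hd
  have hda : x (t a) ⬝ᵥ d = -(D * D) := by
    rw [hd, dotProduct_smul, dir_self]; simp [hD]
  have hdne : d ≠ 0 := by
    intro h0
    rw [h0, dotProduct_zero] at hda
    have : D * D = 0 := by linarith
    exact hD0 (mul_self_eq_zero.1 this)
  have hdb : ∀ b, b ≠ a → x (t b) ⬝ᵥ d = 0 := by
    intro b hb
    rw [hd, dotProduct_smul, dir_orth x t a b hb, smul_zero]
  let S : Finset (Fin N) := univ.filter fun i => 0 < x i ⬝ᵥ d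
  have hS : S.Nonempty := by
    obtain ⟨i, hi⟩ := hpos d hdne
    exact ⟨i, by simp [S, hi]⟩
  obtain ⟨i1, hi1, hmin⟩ := S.exists_min_image (fun i => (1 - x i ⬝ᵥ vert x t) / (x i ⬝ᵥ d)) hS
  have hi1' : 0 < x i1 ⬝ᵥ d := by simpa [S] using hi1
  set s := (1 - x i1 ⬝ᵥ vert x t) / (x i1 ⬝ᵥ d) with hs
  have hs0 : 0 ≤ s := div_nonneg (by linarith [ht.2 i1]) hi1'.le
  have hdet : (mat x (Function.update t a i1)).det = x i1 ⬝ᵥ dir x t a := det_update x t a i1
  have hxd : x i1 ⬝ᵥ d = -D * (x i1 ⬝ᵥ dir x t a) := by rw [hd, dotProduct_smul]; rfl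
  have hneg : D * (mat x (Function.update t a i1)).det < 0 := by
    rw [hdet]; rw [hxd] at hi1'; linarith
  have hdet0 : (mat x (Function.update t a i1)).det ≠ 0 := by
    intro h0; rw [h0, mul_zero] at hneg; exact lt_irrefl _ hneg
  have hv : vert x t + s • d = vert x (Function.update t a i1) := by
    apply vert_unique x _ hdet0
    intro b
    by_cases hb : b = a
    · subst hb
      rw [Function.update_self, dotProduct_add, dotProduct_smul, smul_eq_mul, hs,
        div_mul_cancel₀ _ hi1'.ne']
      ring
    · rw [Function.update_of_ne hb, dotProduct_add, dotProduct_smul, vert_tight x t ht.1, hdb b hb]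
      simp
  refine ⟨i1, ⟨hdet0, ?_⟩, hneg⟩
  intro j
  rw [← hv, dotProduct_add, dotProduct_smul, smul_eq_mul]
  by_cases hj : 0 < x j ⬝ᵥ d
  · have h1 := hmin j (by simp [S, hj])
    have h2 : s * (x j ⬝ᵥ d) ≤ 1 - x j ⬝ᵥ vert x t := by
      rw [hs]
      exact (le_div_iff₀ hj).1 h1
    linarith
  · have h2 : s * (x j ⬝ᵥ d) ≤ 0 := mul_nonpos_of_nonneg_of_nonpos hs0 (not_lt.1 hj)
    linarith [ht.2 j]

/-- Two feasible bases on the same side coincide, in general position. -/
theorem same_side (x : Fin N → Fin n → ℝ)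
    (hgen : ∀ v : Fin n → ℝ, (univ.filter fun i => x i ⬝ᵥ v = 1).card ≤ n)
    (t : Fin n → Fin N) (a : Fin n) (i i' : Fin N) (hne : i ≠ i')
    (hi : Feas x (Function.update t a i)) (hi' : Feas x (Function.update t a i')) :
    (mat x (Function.update t a i)).det * (mat x (Function.update t a i')).det < 0 := by
  classical
  by_contra hcon
  set D := (mat x (Function.update t a i)).det with hD
  set D' := (mat x (Function.update t a i')).det with hD'
  have hpos : 0 < D * D' :=
    lt_of_le_of_ne (not_lt.1 hcon) (Ne.symm (mul_ne_zero hi.1 hi'.1))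
  set v := vert x (Function.update t a i) with hv
  set v' := vert x (Function.update t a i') with hv'
  set ν := dir x t a with hν
  have hDν : x i ⬝ᵥ ν = D := by rw [hD, det_update]
  have hDν' : x i' ⬝ᵥ ν = D' := by rw [hD', det_update]
  -- tightness
  have htb : ∀ b, b ≠ a → x (t b) ⬝ᵥ v = 1 := fun b hb => by
    have := vert_tight x _ hi.1 b
    rwa [Function.update_of_ne hb] at this
  have htb' : ∀ b, b ≠ a → x (t b) ⬝ᵥ v' = 1 := fun b hb => by
    have := vert_tight x _ hi'.1 b
    rwa [Function.update_of_ne hb] at this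
  have hiv : x i ⬝ᵥ v = 1 := by
    have := vert_tight x _ hi.1 a
    rwa [Function.update_self] at this
  have hiv' : x i' ⬝ᵥ v' = 1 := by
    have := vert_tight x _ hi'.1 a
    rwa [Function.update_self] at this
  have hline : v' - v = ((x i ⬝ᵥ (v' - v)) / D) • ν := by
    have := eq_zero_of_orth x _ hi.1 ((v' - v) - ((x i ⬝ᵥ (v' - v)) / D) • ν) (fun b => by
      by_cases hb : b = a
      · subst hb
        rw [Function.update_self, dotProduct_sub, dotProduct_smul, hDν, smul_eq_mul,
          div_mul_cancel₀ _ hi.1, sub_self]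
      · rw [Function.update_of_ne hb, dotProduct_sub, dotProduct_smul, dir_orth x t a b hb,
          dotProduct_sub, htb b hb, htb' b hb]
        simp)
    exact sub_eq_zero.1 this
  set s := (x i ⬝ᵥ (v' - v)) / D with hs
  have h1 : x i ⬝ᵥ (v' - v) ≤ 0 := by
    rw [dotProduct_sub, hiv]; linarith [hi'.2 i]
  have h2 : 0 ≤ x i' ⬝ᵥ (v' - v) := by
    rw [dotProduct_sub, hiv']; linarith [hi.2 i']
  have h3 : s * D ≤ 0 := by rw [hline, dotProduct_smul, hDν] at h1; simpa using h1
  have h4 : 0 ≤ s * D' := by
    have := h2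
    rw [hline, dotProduct_smul, hDν'] at this; simpa using this
  have hs0 : s = 0 := by
    have h5 : 0 ≤ (s * D') * (D * D) := mul_nonneg h4 (mul_self_nonneg D)
    have h6 : (s * D) * (D * D') ≤ 0 := mul_nonpos_of_nonpos_of_nonneg h3 hpos.le
    have h7 : (s * D) * (D * D') = 0 := by nlinarith
    rcases mul_eq_zero.1 h7 with h | h
    · rcases mul_eq_zero.1 h with h | h
      · exact h
      · exact absurd h hi.1
    · exact absurd h hpos.ne'
  have hvv : v' = v := by
    have := hline
    rw [hs0, zero_smul] at this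
    exact sub_eq_zero.1 this
  -- n + 1 tight constraints
  have hinj := injective_of_det x _ hi.1
  have hinj' := injective_of_det x _ hi'.1
  have hsub : insert i' (univ.image (Function.update t a i)) ⊆
      univ.filter fun j => x j ⬝ᵥ v = 1 := by
    intro j hj
    rw [mem_insert, mem_image] at hj
    rw [mem_filter]
    refine ⟨mem_univ _, ?_⟩
    rcases hj with rfl | ⟨b, -, rfl⟩
    · rw [← hvv]; exact hiv'
    · exact vert_tight x _ hi.1 b
  have hnot : i' ∉ univ.image (Function.update t a i) := by
    intro hmem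
    rw [mem_image] at hmem
    obtain ⟨b, -, hb⟩ := hmem
    by_cases hba : b = a
    · subst hba
      rw [Function.update_self] at hb
      exact hne hb
    · rw [Function.update_of_ne hba] at hb
      apply hba
      apply hinj'
      rw [Function.update_self, Function.update_of_ne hba, hb]
  have hcard := card_le_card hsub
  rw [card_insert_of_notMem hnot, card_image_of_injective _ hinj, card_univ, Fintype.card_fin]
    at hcard
  have := hgen v
  omega

open Classical in
/-- The sign of the determinant of a feasible basis, and `0` for other tuples. -/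
noncomputable def sg (x : Fin N → Fin n → ℝ) (t : Fin n → Fin N) : ℝ :=
  if Feas x t then SignType.sign (mat x t).det else 0

theorem sg_mul_det_nonneg (x : Fin N → Fin n → ℝ) (t : Fin n → Fin N) :
    0 ≤ sg x t * (mat x t).det := by
  unfold sg
  split_ifs
  · rw [sign_mul_self]; exact abs_nonneg _
  · simp

theorem sg_mul_det_pos (x : Fin N → Fin n → ℝ) (t : Fin n → Fin N) (h : Feas x t) :
    0 < sg x t * (mat x t).det := by
  unfold sg
  rw [if_pos h, sign_mul_self]
  exact abs_pos.2 h.1

theorem sg_ne_zero (x : Fin N → Fin n → ℝ) (t : Fin n → Fin N) (h : sg x t ≠ 0) : Feas x t := by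
  unfold sg at h
  by_contra hn
  rw [if_neg hn] at h
  exact h rfl

/-- The pivot lemma. -/
theorem pivot (x : Fin N → Fin n → ℝ)
    (hpos : ∀ y : Fin n → ℝ, y ≠ 0 → ∃ i, 0 < x i ⬝ᵥ y)
    (hgen : ∀ v : Fin n → ℝ, (univ.filter fun i => x i ⬝ᵥ v = 1).card ≤ n)
    (t : Fin n → Fin N) (a : Fin n) :
    ∑ i, sg x (Function.update t a i) = 0 := by
  classical
  by_cases hex : ∃ i, Feas x (Function.update t a i)
  · obtain ⟨i, hi⟩ := hex
    obtain ⟨i', hi', hneg⟩ := exists_other_side x hpos (Function.update t a i) a hi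
    rw [Function.update_idem] at hi' hneg
    have hne : i ≠ i' := by
      rintro rfl
      exact absurd hneg (not_lt.2 (mul_self_nonneg _))
    have hother : ∀ j, j ≠ i → j ≠ i' → sg x (Function.update t a j) = 0 := by
      intro j h1 h2
      by_contra h0
      have hj := sg_ne_zero x _ h0
      have e1 := same_side x hgen t a j i h1 hj hi
      have e2 := same_side x hgen t a j i' h2 hj hi'
      have e3 : 0 < (mat x (Function.update t a j)).det * (mat x (Function.update t a i)).det *
          ((mat x (Function.update t a j)).det * (mat x (Function.update t a i')).det) :=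
        mul_pos_of_neg_of_neg e1 e2
      nlinarith [mul_self_nonneg (mat x (Function.update t a j)).det]
    rw [← Finset.sum_subset (Finset.subset_univ ({i, i'} : Finset (Fin N)))
      (fun j _ hj => hother j (fun h => hj (by simp [h])) (fun h => hj (by simp [h]))),
      Finset.sum_pair hne]
    unfold sg
    rw [if_pos hi, if_pos hi']
    rcases lt_or_gt_of_ne hi.1 with h | h
    · have h' : 0 < (mat x (Function.update t a i')).det := by
        by_contra hc
        exact absurd hneg (not_lt.2 (mul_nonneg_of_nonpos_of_nonpos h.le (not_lt.1 hc)))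
      rw [sign_neg h, sign_pos h']
      norm_num
    · have h' : (mat x (Function.update t a i')).det < 0 := by
        by_contra hc
        exact absurd hneg (not_lt.2 (mul_nonneg h.le (not_lt.1 hc)))
      rw [sign_pos h, sign_neg h']
      norm_num
  · push Not at hex
    apply Finset.sum_eq_zero
    intro i _
    unfold sg
    rw [if_neg (hex i)]

/-- If all partial sums over the position `a` vanish, then the whole sum vanishes. -/
theorem sum_eq_zero_of_update {M : Type} [AddCommGroup M] [Module ℝ M]
    (F : (Fin n → Fin N) → M) (a : Fin n)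
    (h : ∀ t, ∑ i, F (Function.update t a i) = 0) : ∑ t, F t = 0 := by
  classical
  rcases Nat.eq_zero_or_pos N with hN | hN
  · subst hN
    have : IsEmpty (Fin n → Fin 0) := ⟨fun t => (t a).elim0⟩
    simp
  have h1 : ∑ ti : (Fin n → Fin N) × Fin N, F (Function.update ti.1 a ti.2) = 0 := by
    rw [Fintype.sum_prod_type]
    exact Finset.sum_eq_zero fun t _ => h t
  let e : ((Fin n → Fin N) × Fin N) ≃ ((Fin n → Fin N) × Fin N) :=
    { toFun := fun ti => (Function.update ti.1 a ti.2, ti.1 a)
      invFun := fun ti => (Function.update ti.1 a ti.2, ti.1 a)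
      left_inv := fun ti => by simp
      right_inv := fun ti => by simp }
  have h2 : ∑ ti : (Fin n → Fin N) × Fin N, F (Function.update ti.1 a ti.2)
      = ∑ ti : (Fin n → Fin N) × Fin N, F ti.1 :=
    Equiv.sum_comp e (fun ti => F ti.1)
  rw [h2, Fintype.sum_prod_type] at h1
  simp only [Finset.sum_const, Finset.card_univ, Fintype.card_fin] at h1
  rw [← Finset.smul_sum] at h1
  have h3 : (N : ℝ) • ∑ t, F t = 0 := by rw [← h1]; exact (Nat.cast_smul_eq_nsmul ℝ N _)
  rcases smul_eq_zero.1 h3 with h4 | h4
  · exact absurd (Nat.cast_eq_zero.1 h4) hN.ne'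
  · exact h4

end Pool.Agent.Helper66.CapCover
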