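import Mathlib
import Pool.Agent.Helper66.CapCover.Pivot

/-!
# The weights `|det|` on the vertices of a simple polytope
-/

set_option autoImplicit false

open Finset Matrix

namespace Pool.Agent.Helper66.CapCover

variable {n N : ℕ}

/-- There is a feasible basis. -/
theorem exists_feas (x : Fin N → Fin n → ℝ)
    (hpos : ∀ y : Fin n → ℝ, y ≠ 0 → ∃ i, 0 < x i ⬝ᵥ y) : ∃ t, Feas x t := by
  classical
  have key : ∀ m, m ≤ n → ∃ (t : Fin m → Fin N) (y : Fin n → ℝ),
      LinearIndependent ℝ (fun b => x (t b)) ∧ (∀ b, x (t b) ⬝ᵥ y = 1) ∧ ∀ j, x j ⬝ᵥ y ≤ 1 := by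
    intro m
    induction m with
    | zero =>
      intro _
      exact ⟨Fin.elim0, 0, linearIndependent_empty_type, fun b => b.elim0, fun j => by simp⟩
    | succ m ih =>
      intro hm
      obtain ⟨t, y, hli, htight, hfeas⟩ := ih (by omega)
      let L : (Fin n → ℝ) →ₗ[ℝ] (Fin m → ℝ) := Matrix.mulVecLin (Matrix.of fun b => x (t b))
      have hker : LinearMap.ker L ≠ ⊥ := by
        apply LinearMap.ker_ne_bot_of_finrank_lt
        simp only [Module.finrank_fin_fun]
        omega
      obtain ⟨w, hw, hw0⟩ := Submodule.exists_mem_ne_zero_of_ne_bot hker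
      have hwb : ∀ b, x (t b) ⬝ᵥ w = 0 := fun b => congrFun (LinearMap.mem_ker.1 hw) b
      let S : Finset (Fin N) := univ.filter fun i => 0 < x i ⬝ᵥ w
      have hS : S.Nonempty := by
        obtain ⟨i, hi⟩ := hpos w hw0
        exact ⟨i, by simp [S, hi]⟩
      obtain ⟨i1, hi1, hmin⟩ := S.exists_min_image (fun i => (1 - x i ⬝ᵥ y) / (x i ⬝ᵥ w)) hS
      have hi1' : 0 < x i1 ⬝ᵥ w := by simpa [S] using hi1
      set s := (1 - x i1 ⬝ᵥ y) / (x i1 ⬝ᵥ w) with hs
      have hs0 : 0 ≤ s := div_nonneg (by linarith [hfeas i1]) hi1'.le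
      refine ⟨Fin.snoc t i1, y + s • w, ?_, ?_, ?_⟩
      · have h1 : (fun b => x ((Fin.snoc t i1 : Fin (m + 1) → Fin N) b)) =
            (Fin.snoc (fun b => x (t b)) (x i1) : Fin (m + 1) → (Fin n → ℝ)) := by
          funext b
          refine Fin.lastCases ?_ (fun b => ?_) b
          · simp
          · simp
        rw [h1, linearIndependent_finSnoc]
        refine ⟨hli, ?_⟩
        intro hmem
        have h2 : x i1 ⬝ᵥ w = 0 := by
          have h3 : Submodule.span ℝ (Set.range fun b => x (t b)) ≤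
              LinearMap.ker (LinearMap.flip (dotProductBilin ℝ ℝ) w : (Fin n → ℝ) →ₗ[ℝ] ℝ) := by
            rw [Submodule.span_le]
            rintro _ ⟨b, rfl⟩
            simp only [SetLike.mem_coe, LinearMap.mem_ker, LinearMap.flip_apply]
            exact hwb b
          have h4 := h3 hmem
          rw [LinearMap.mem_ker] at h4
          exact h4
        exact hi1'.ne' h2
      · intro b
        refine Fin.lastCases ?_ (fun b => ?_) b
        · rw [Fin.snoc_last, dotProduct_add, dotProduct_smul, smul_eq_mul, hs,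
            div_mul_cancel₀ _ hi1'.ne']
          ring
        · rw [Fin.snoc_castSucc, dotProduct_add, dotProduct_smul, htight b, hwb b]
          simp
      · intro j
        rw [dotProduct_add, dotProduct_smul, smul_eq_mul]
        by_cases hj : 0 < x j ⬝ᵥ w
        · have h1 := hmin j (by simp [S, hj])
          have h2 : s * (x j ⬝ᵥ w) ≤ 1 - x j ⬝ᵥ y := by
            rw [hs]
            exact (le_div_iff₀ hj).1 h1
          linarith
        · have h2 : s * (x j ⬝ᵥ w) ≤ 0 := mul_nonpos_of_nonneg_of_nonpos hs0 (not_lt.1 hj)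
          linarith [hfeas j]
  obtain ⟨t, y, hli, htight, hfeas⟩ := key n le_rfl
  have hdet : (mat x t).det ≠ 0 := by
    have h1 : IsUnit (mat x t) := Matrix.linearIndependent_rows_iff_isUnit.1 hli
    exact ((Matrix.isUnit_iff_isUnit_det _).1 h1).ne_zero
  refine ⟨t, hdet, ?_⟩
  rw [← vert_unique x t hdet y htight]
  exact hfeas

theorem det_mul_vert (x : Fin N → Fin n → ℝ) (t : Fin n → Fin N) (h : (mat x t).det ≠ 0)
    (c : Fin n) : (mat x t).det * vert x t c = ∑ a, dir x t a c := by
  unfold vert dir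
  rw [Matrix.inv_def, Matrix.smul_mulVec]
  simp only [Pi.smul_apply, smul_eq_mul, Ring.inverse_eq_inv']
  rw [mul_inv_cancel_left₀ h]
  simp [Matrix.mulVec, dotProduct]

theorem sg_det_vert (x : Fin N → Fin n → ℝ) (t : Fin n → Fin N) (c : Fin n) :
    sg x t * (mat x t).det * vert x t c = ∑ a, sg x t * dir x t a c := by
  by_cases h : sg x t = 0
  · simp [h]
  · rw [← Finset.mul_sum, ← det_mul_vert x t (sg_ne_zero x t h).1]
    ring

section identities

variable (x : Fin N → Fin n → ℝ)
    (hpos : ∀ y : Fin n → ℝ, y ≠ 0 → ∃ i, 0 < x i ⬝ᵥ y)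
    (hgen : ∀ v : Fin n → ℝ, (univ.filter fun i => x i ⬝ᵥ v = 1).card ≤ n)

include hpos hgen

theorem sum_vert_eq_zero (c : Fin n) :
    ∑ t, sg x t * (mat x t).det * vert x t c = 0 := by
  simp_rw [sg_det_vert]
  rw [Finset.sum_comm]
  apply Finset.sum_eq_zero
  intro a _
  apply sum_eq_zero_of_update (fun t => sg x t * dir x t a c) a
  intro t
  simp_rw [dir_update]
  rw [← Finset.sum_mul, pivot x hpos hgen, zero_mul]

theorem sum_cross (c d : Fin n) :
    ∑ t, sg x t * (mat x t).det * vert x t c * (∑ b, x (t b) d) =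
      if c = d then ∑ t, sg x t * (mat x t).det else 0 := by
  simp_rw [sg_det_vert, Finset.sum_mul, Finset.mul_sum]
  have h1 : ∀ a b : Fin n, b ≠ a → ∑ t : Fin n → Fin N, sg x t * dir x t a c * x (t b) d = 0 := by
    intro a b hb
    apply sum_eq_zero_of_update (fun t => sg x t * dir x t a c * x (t b) d) a
    intro t
    simp_rw [dir_update, Function.update_of_ne hb]
    rw [← Finset.sum_mul, ← Finset.sum_mul, pivot x hpos hgen, zero_mul, zero_mul]
  have h2 : ∑ t : Fin n → Fin N, ∑ a, ∑ b, sg x t * dir x t a c * x (t b) d =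
      ∑ t : Fin n → Fin N, ∑ a, sg x t * dir x t a c * x (t a) d := by
    rw [Finset.sum_comm]
    rw [Finset.sum_comm (s := (univ : Finset (Fin n → Fin N)))]
    apply Finset.sum_congr rfl
    intro a _
    rw [Finset.sum_comm]
    rw [Finset.sum_eq_single a]
    · intro b _ hb
      exact h1 a b hb
    · intro h; exact absurd (mem_univ _) h
  rw [h2]
  have h3 : ∀ t : Fin n → Fin N, ∑ a, sg x t * dir x t a c * x (t a) d =
      if c = d then sg x t * (mat x t).det else 0 := by
    intro t
    have h4 : ((mat x t).adjugate * mat x t) c d = ∑ a, dir x t a c * x (t a) d := by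
      rw [Matrix.mul_apply]; rfl
    rw [Matrix.adjugate_mul, Matrix.smul_apply, Matrix.one_apply] at h4
    simp_rw [mul_assoc]
    rw [← Finset.mul_sum, ← h4]
    split_ifs <;> simp
  simp_rw [h3]
  split_ifs
  · rfl
  · simp

end identities

/-- Weights `p` and points `v` on the bases `t` with the properties of the cone-volume measure. -/
structure IsMeas (x : Fin N → Fin n → ℝ) (p : (Fin n → Fin N) → ℝ)
    (v : (Fin n → Fin N) → Fin n → ℝ) : Prop where
  nonneg : ∀ t, 0 ≤ p t
  sum_one : ∑ t, p t = 1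
  inj : ∀ t, ¬ Function.Injective t → p t = 0
  tight : ∀ t b, p t * (x (t b) ⬝ᵥ v t - 1) = 0
  feas : ∀ t j, p t * (x j ⬝ᵥ v t - 1) ≤ 0
  mean : ∀ c, ∑ t, p t * v t c = 0
  cross : ∀ c d, ∑ t, p t * v t c * (∑ b, x (t b) d) = if c = d then 1 else 0

theorem exists_meas_generic (x : Fin N → Fin n → ℝ)
    (hpos : ∀ y : Fin n → ℝ, y ≠ 0 → ∃ i, 0 < x i ⬝ᵥ y)
    (hgen : ∀ v : Fin n → ℝ, (univ.filter fun i => x i ⬝ᵥ v = 1).card ≤ n) :
    ∃ p v, IsMeas x p v ∧ ∀ t, v t = 0 ∨ ∀ j, x j ⬝ᵥ v t ≤ 1 := by
  classical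
  set Z := ∑ t, sg x t * (mat x t).det with hZ
  have hZpos : 0 < Z := by
    obtain ⟨t, ht⟩ := exists_feas x hpos
    exact Finset.sum_pos' (fun t _ => sg_mul_det_nonneg x t)
      ⟨t, mem_univ _, sg_mul_det_pos x t ht⟩
  have hfeas : ∀ t, (sg x t * (mat x t).det / Z) ≠ 0 → Feas x t := by
    intro t ht
    apply sg_ne_zero
    intro h0
    apply ht
    rw [h0]; simp
  refine ⟨fun t => sg x t * (mat x t).det / Z, fun t => if Feas x t then vert x t else 0,
    ⟨?_, ?_, ?_, ?_, ?_, ?_, ?_⟩, ?_⟩
  · intro t; exact div_nonneg (sg_mul_det_nonneg x t) hZpos.le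
  · rw [← Finset.sum_div]; exact div_self hZpos.ne'
  · intro t ht
    by_contra h
    exact ht (injective_of_det x t (hfeas t h).1)
  · intro t b
    by_cases h : (sg x t * (mat x t).det / Z) = 0
    · simp only [h, zero_mul]
    · have hF := hfeas t h
      simp only [if_pos hF]
      rw [vert_tight x t hF.1, sub_self, mul_zero]
  · intro t j
    by_cases h : (sg x t * (mat x t).det / Z) = 0
    · simp only [h, zero_mul]; exact le_rfl
    · have hF := hfeas t h
      simp only [if_pos hF]
      exact mul_nonpos_of_nonneg_of_nonpos (div_nonneg (sg_mul_det_nonneg x t) hZpos.le)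
        (by linarith [hF.2 j])
  · intro c
    have h1 : ∀ t, (sg x t * (mat x t).det / Z) * (if Feas x t then vert x t else 0) c =
        (sg x t * (mat x t).det * vert x t c) / Z := by
      intro t
      by_cases hF : Feas x t
      · rw [if_pos hF]; ring
      · have : sg x t = 0 := by unfold sg; rw [if_neg hF]
        rw [this]; simp
    simp_rw [h1]
    rw [← Finset.sum_div, sum_vert_eq_zero x hpos hgen c, zero_div]
  · intro c d
    have h1 : ∀ t, (sg x t * (mat x t).det / Z) * (if Feas x t then vert x t else 0) c *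
        (∑ b, x (t b) d) = (sg x t * (mat x t).det * vert x t c * (∑ b, x (t b) d)) / Z := by
      intro t
      by_cases hF : Feas x t
      · rw [if_pos hF]; ring
      · have : sg x t = 0 := by unfold sg; rw [if_neg hF]
        rw [this]; simp
    simp_rw [h1]
    rw [← Finset.sum_div, sum_cross x hpos hgen c d]
    split_ifs
    · exact div_self hZpos.ne'
    · simp
  · intro t
    by_cases hF : Feas x t
    · right
      simp only [if_pos hF]
      exact hF.2
    · left
      simp only [if_neg hF]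

end Pool.Agent.Helper66.CapCover
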