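import Mathlib
import Pool.Agent.Helper66.CapCover.Generic

/-!
# Perturbation to general position and passage to the limit
-/

set_option autoImplicit false

open Finset Matrix Filter Topology

namespace Pool.Agent.Helper66.CapCover

variable {n N : ℕ}

/-- The perturbed vectors. -/
noncomputable def pert (x : Fin N → Fin n → ℝ) (δ : ℝ) : Fin N → Fin n → ℝ :=
  fun i c => x i c + δ⁻¹ * (((i : ℕ) : ℝ) + 1) ^ ((c : ℕ) + 1)

/-- The matrix with rows `(1, δ x_i + w_i)`, as a matrix of polynomials in `δ`. -/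
noncomputable def polyMat (x : Fin N → Fin n → ℝ) (t : Fin (n + 1) → Fin N) :
    Matrix (Fin (n + 1)) (Fin (n + 1)) (Polynomial ℝ) :=
  Matrix.of fun b => Fin.cons 1 (fun c : Fin n =>
    Polynomial.C (x (t b) c) * Polynomial.X +
      Polynomial.C ((((t b : Fin N) : ℕ) : ℝ) + 1) ^ ((c : ℕ) + 1))

theorem polyMat_eval (x : Fin N → Fin n → ℝ) (t : Fin (n + 1) → Fin N) (δ : ℝ)
    (b : Fin (n + 1)) (c : Fin n) :
    ((polyMat x t).map (Polynomial.evalRingHom δ)) b c.succ =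
      δ * x (t b) c + ((((t b : Fin N) : ℕ) : ℝ) + 1) ^ ((c : ℕ) + 1) := by
  have h : (polyMat x t) b c.succ = Polynomial.C (x (t b) c) * Polynomial.X +
      Polynomial.C ((((t b : Fin N) : ℕ) : ℝ) + 1) ^ ((c : ℕ) + 1) := rfl
  rw [Matrix.map_apply, h, Polynomial.coe_evalRingHom]
  simp only [Polynomial.eval_add, Polynomial.eval_mul, Polynomial.eval_C, Polynomial.eval_X,
    Polynomial.eval_pow]
  ring

theorem polyMat_eval_zero (x : Fin N → Fin n → ℝ) (t : Fin (n + 1) → Fin N) (δ : ℝ)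
    (b : Fin (n + 1)) :
    ((polyMat x t).map (Polynomial.evalRingHom δ)) b 0 = 1 := by
  simp [polyMat]

theorem polyMat_det_ne_zero (x : Fin N → Fin n → ℝ) (t : Fin (n + 1) → Fin N)
    (ht : Function.Injective t) : (polyMat x t).det ≠ 0 := by
  intro h0
  have h1 : ((polyMat x t).map (Polynomial.evalRingHom 0)).det = 0 := by
    have := congrArg (Polynomial.evalRingHom (0 : ℝ)) h0
    rw [RingHom.map_det] at this
    simpa using this
  have h2 : (polyMat x t).map (Polynomial.evalRingHom 0) =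
      Matrix.vandermonde (fun b => (((t b : Fin N) : ℕ) : ℝ) + 1) := by
    ext b c
    refine Fin.cases ?_ (fun c => ?_) c
    · rw [polyMat_eval_zero]; simp [Matrix.vandermonde]
    · rw [polyMat_eval]; simp [Matrix.vandermonde]
  rw [h2] at h1
  refine Matrix.det_vandermonde_ne_zero_iff.2 ?_ h1
  intro b b' hbb
  apply ht
  have h3 : (((t b : Fin N) : ℕ) : ℝ) = (((t b' : Fin N) : ℕ) : ℝ) := by linarith
  exact Fin.ext (Nat.cast_injective h3)

theorem pert_generic (x : Fin N → Fin n → ℝ) (δ : ℝ) (hδ : δ ≠ 0)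
    (h : ∀ t : Fin (n + 1) → Fin N, Function.Injective t →
      ((polyMat x t).det).eval δ ≠ 0) (v : Fin n → ℝ) :
    (univ.filter fun i => pert x δ i ⬝ᵥ v = 1).card ≤ n := by
  classical
  by_contra hcon
  push Not at hcon
  obtain ⟨S, hS, hcard⟩ := Finset.exists_subset_card_eq (show n + 1 ≤ _ from hcon)
  let t : Fin (n + 1) → Fin N := S.orderEmbOfFin hcard
  have htinj : Function.Injective t := (S.orderEmbOfFin hcard).injective
  have htS : ∀ b, pert x δ (t b) ⬝ᵥ v = 1 := fun b => by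
    have h1 : t b ∈ S := S.orderEmbOfFin_mem hcard b
    have h2 := hS h1
    rw [mem_filter] at h2
    exact h2.2
  apply h t htinj
  have h3 : (polyMat x t).det.eval δ = ((polyMat x t).map (Polynomial.evalRingHom δ)).det := by
    have := RingHom.map_det (Polynomial.evalRingHom δ) (polyMat x t)
    simpa using this
  rw [h3]
  by_contra hdet
  have h4 := Matrix.eq_zero_of_mulVec_eq_zero hdet (v := Fin.cons (-δ) v) (by
    funext b
    simp only [Matrix.mulVec, dotProduct, Pi.zero_apply]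
    rw [Fin.sum_univ_succ]
    rw [polyMat_eval_zero]
    simp only [polyMat_eval, Fin.cons_zero, Fin.cons_succ]
    have h5 := htS b
    simp only [pert, dotProduct] at h5
    have h6 : ∑ c : Fin n, (δ * x (t b) c + ((((t b : Fin N) : ℕ) : ℝ) + 1) ^ ((c : ℕ) + 1)) * v c =
        δ * ∑ c : Fin n, (x (t b) c + δ⁻¹ * ((((t b : Fin N) : ℕ) : ℝ) + 1) ^ ((c : ℕ) + 1)) * v c := by
      rw [Finset.mul_sum]
      apply Finset.sum_congr rfl
      intro c _
      field_simp
    rw [h6, h5]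
    ring)
  have h5 := congrFun h4 0
  simp only [Fin.cons_zero, Pi.zero_apply] at h5
  exact hδ (neg_eq_zero.1 h5)

theorem eventually_generic (x : Fin N → Fin n → ℝ) :
    ∀ᶠ δ : ℝ in atTop, ∀ v : Fin n → ℝ,
      (univ.filter fun i => pert x δ i ⬝ᵥ v = 1).card ≤ n := by
  have h1 : ∀ᶠ δ : ℝ in atTop, ∀ t : Fin (n + 1) → Fin N, Function.Injective t →
      ((polyMat x t).det).eval δ ≠ 0 := by
    rw [eventually_all]
    intro t
    by_cases ht : Function.Injective t
    · filter_upwards [Polynomial.eventually_atTop_not_isRoot _ (polyMat_det_ne_zero x t ht)] with δ hδ _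
      exact hδ
    · exact Eventually.of_forall fun δ h => absurd h ht
  filter_upwards [h1, eventually_gt_atTop 0] with δ hδ hpos v
  exact pert_generic x δ hpos.ne' hδ v

theorem pert_tendsto (x : Fin N → Fin n → ℝ) :
    Tendsto (fun δ => pert x δ) atTop (𝓝 x) := by
  rw [tendsto_pi_nhds]
  intro i
  rw [tendsto_pi_nhds]
  intro c
  have h1 : Tendsto (fun δ : ℝ => x i c + δ⁻¹ * (((i : ℕ) : ℝ) + 1) ^ ((c : ℕ) + 1)) atTop
      (𝓝 (x i c + 0 * (((i : ℕ) : ℝ) + 1) ^ ((c : ℕ) + 1))) :=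
    (tendsto_inv_atTop_zero.mul_const _).const_add _
  simpa [pert] using h1

/-- Quantitative positivity. -/
theorem exists_delta (x : Fin N → Fin n → ℝ) (hn : 0 < n)
    (hpos : ∀ y : Fin n → ℝ, y ≠ 0 → ∃ i, 0 < x i ⬝ᵥ y) :
    ∃ η > 0, ∀ y : Fin n → ℝ, ‖y‖ = 1 → ∃ i, η ≤ x i ⬝ᵥ y := by
  classical
  have hN : Nonempty (Fin N) := by
    have : Nonempty (Fin n) := ⟨⟨0, hn⟩⟩
    obtain ⟨i, -⟩ := hpos (fun _ => 1) (by
      intro h; have := congrFun h ⟨0, hn⟩; simp at this)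
    exact ⟨i⟩
  have : Nonempty (Fin n) := ⟨⟨0, hn⟩⟩
  let g : (Fin n → ℝ) → ℝ := fun y => univ.sup' univ_nonempty (fun i => x i ⬝ᵥ y)
  have hg : Continuous g := by
    apply Continuous.finset_sup'_apply
    intro i _
    exact Continuous.dotProduct continuous_const continuous_id
  obtain ⟨y0, hy0, hmin⟩ := (isCompact_sphere (0 : Fin n → ℝ) 1).exists_isMinOn
    (NormedSpace.sphere_nonempty.2 zero_le_one) hg.continuousOn
  have hy0n : ‖y0‖ = 1 := by simpa using hy0
  have hy00 : y0 ≠ 0 := by intro h; rw [h, norm_zero] at hy0n; exact zero_ne_one hy0n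
  refine ⟨g y0, ?_, ?_⟩
  · obtain ⟨i, hi⟩ := hpos y0 hy00
    exact lt_of_lt_of_le hi (Finset.le_sup' (fun i => x i ⬝ᵥ y0) (mem_univ i))
  · intro y hy
    obtain ⟨i, -, hi⟩ := Finset.exists_mem_eq_sup' (univ_nonempty (α := Fin N))
      (fun i => x i ⬝ᵥ y)
    refine ⟨i, ?_⟩
    have h1 : g y0 ≤ g y := hmin (by simpa using hy)
    calc g y0 ≤ g y := h1
      _ = x i ⬝ᵥ y := hi

theorem abs_dotProduct_le (w y : Fin n → ℝ) : |w ⬝ᵥ y| ≤ n * ‖w‖ * ‖y‖ := by
  unfold dotProduct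
  calc |∑ c, w c * y c| ≤ ∑ c, |w c * y c| := Finset.abs_sum_le_sum_abs _ _
    _ ≤ ∑ _c : Fin n, ‖w‖ * ‖y‖ := by
        apply Finset.sum_le_sum
        intro c _
        rw [abs_mul]
        exact mul_le_mul (norm_le_pi_norm w c) (norm_le_pi_norm y c) (abs_nonneg _) (norm_nonneg _)
    _ = n * ‖w‖ * ‖y‖ := by rw [Finset.sum_const, card_univ, Fintype.card_fin, nsmul_eq_mul]; ring

theorem eventually_eta (x : Fin N → Fin n → ℝ) (hn : 0 < n)
    (hpos : ∀ y : Fin n → ℝ, y ≠ 0 → ∃ i, 0 < x i ⬝ᵥ y) :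
    ∃ η > 0, ∀ᶠ δ : ℝ in atTop, ∀ y : Fin n → ℝ, ∃ i, η * ‖y‖ ≤ pert x δ i ⬝ᵥ y := by
  obtain ⟨η, hη, h⟩ := exists_delta x hn hpos
  refine ⟨η / 2, by positivity, ?_⟩
  have h1 : Tendsto (fun δ => ‖pert x δ - x‖) atTop (𝓝 0) := by
    have := ((pert_tendsto x).sub_const x).norm
    simpa using this
  have h2 : Tendsto (fun δ => n * ‖pert x δ - x‖) atTop (𝓝 0) := by
    simpa using h1.const_mul (n : ℝ)
  filter_upwards [h2.eventually (ge_mem_nhds (show (0 : ℝ) < η / 2 by positivity))] with δ hδ y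
  by_cases hy : y = 0
  · obtain ⟨i, -⟩ := hpos (fun _ => 1) (by
      intro h; have := congrFun h ⟨0, hn⟩; simp at this)
    exact ⟨i, by simp [hy]⟩
  · have hyn : 0 < ‖y‖ := norm_pos_iff.2 hy
    obtain ⟨i, hi⟩ := h (‖y‖⁻¹ • y) (by rw [norm_smul, norm_inv, norm_norm, inv_mul_cancel₀ hyn.ne'])
    refine ⟨i, ?_⟩
    rw [dotProduct_smul, smul_eq_mul] at hi
    have h3 : η * ‖y‖ ≤ x i ⬝ᵥ y := by
      have := mul_le_mul_of_nonneg_right hi hyn.le
      rw [mul_comm ‖y‖⁻¹, mul_assoc, inv_mul_cancel₀ hyn.ne', mul_one] at this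
      exact this
    have h4 : |(pert x δ - x) i ⬝ᵥ y| ≤ (η / 2) * ‖y‖ := by
      calc |(pert x δ - x) i ⬝ᵥ y| ≤ n * ‖(pert x δ - x) i‖ * ‖y‖ := abs_dotProduct_le _ _
        _ ≤ n * ‖pert x δ - x‖ * ‖y‖ := by
            gcongr
            exact norm_le_pi_norm _ i
        _ ≤ (η / 2) * ‖y‖ := by gcongr
    have h5 : pert x δ i ⬝ᵥ y = x i ⬝ᵥ y + (pert x δ - x) i ⬝ᵥ y := by
      rw [Pi.sub_apply, sub_dotProduct]; ring
    rw [h5]
    have := (abs_le.1 h4).1
    linarith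

/-- The cone-volume measure exists for every positively spanning family. -/
theorem exists_meas (x : Fin N → Fin n → ℝ) (hn : 0 < n)
    (hpos : ∀ y : Fin n → ℝ, y ≠ 0 → ∃ i, 0 < x i ⬝ᵥ y) :
    ∃ p v, IsMeas x p v := by
  classical
  obtain ⟨η, hη, hev⟩ := eventually_eta x hn hpos
  have hall := hev.and (eventually_generic x)
  have hnat := (tendsto_natCast_atTop_atTop (R := ℝ)).eventually hall
  obtain ⟨m0, hm0⟩ := eventually_atTop.1 hnat
  -- the sequence of perturbed families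
  let xs : ℕ → Fin N → Fin n → ℝ := fun m => pert x ((m + m0 : ℕ) : ℝ)
  have hxs : Tendsto xs atTop (𝓝 x) := by
    have h1 : Tendsto (fun m : ℕ => ((m + m0 : ℕ) : ℝ)) atTop atTop :=
      tendsto_natCast_atTop_atTop.comp (tendsto_add_atTop_nat m0)
    exact (pert_tendsto x).comp h1
  have hex : ∀ m, ∃ pv : ((Fin n → Fin N) → ℝ) × ((Fin n → Fin N) → Fin n → ℝ),
      IsMeas (xs m) pv.1 pv.2 ∧ ∀ t, ‖pv.2 t‖ ≤ 1 / η := by
    intro m
    obtain ⟨h1, h2⟩ := hm0 (m + m0) (by omega)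
    obtain ⟨p, v, hpv, hb⟩ := exists_meas_generic (xs m) (fun y hy => by
      obtain ⟨i, hi⟩ := h1 y
      exact ⟨i, lt_of_lt_of_le (mul_pos hη (norm_pos_iff.2 hy)) hi⟩) h2
    refine ⟨(p, v), hpv, fun t => ?_⟩
    rcases hb t with h | h
    · simp only [h, norm_zero]; positivity
    · obtain ⟨i, hi⟩ := h1 (v t)
      rw [le_div_iff₀ hη, mul_comm]
      exact hi.trans (h i)
  choose pv hpv hbd using hex
  let K : Set (((Fin n → Fin N) → ℝ) × ((Fin n → Fin N) → Fin n → ℝ)) :=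
    (Set.Icc 0 1) ×ˢ (Metric.closedBall 0 (1 / η))
  have hK : IsCompact K := isCompact_Icc.prod (isCompact_closedBall _ _)
  have hmem : ∀ m, pv m ∈ K := by
    intro m
    refine ⟨⟨fun t => (hpv m).nonneg t, fun t => ?_⟩, ?_⟩
    · have h1 : (pv m).1 t ≤ ∑ t, (pv m).1 t :=
        Finset.single_le_sum (f := (pv m).1) (fun t _ => (hpv m).nonneg t) (mem_univ t)
      rw [(hpv m).sum_one] at h1
      exact h1
    · rw [mem_closedBall_zero_iff, pi_norm_le_iff_of_nonneg (by positivity)]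
      exact hbd m
  obtain ⟨a, -, φ, hφ, hlim⟩ := hK.tendsto_subseq hmem
  have hx := hxs.comp hφ.tendsto_atTop
  have hp : ∀ t, Tendsto (fun m => (pv (φ m)).1 t) atTop (𝓝 (a.1 t)) := fun t =>
    ((continuous_apply t).tendsto _).comp ((continuous_fst.tendsto _).comp hlim)
  have hv : ∀ t c, Tendsto (fun m => (pv (φ m)).2 t c) atTop (𝓝 (a.2 t c)) := fun t c =>
    ((continuous_apply c).tendsto _).comp
      (((continuous_apply t).tendsto _).comp ((continuous_snd.tendsto _).comp hlim))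
  have hxic : ∀ i c, Tendsto (fun m => xs (φ m) i c) atTop (𝓝 (x i c)) := fun i c =>
    ((continuous_apply c).tendsto _).comp (((continuous_apply i).tendsto _).comp hx)
  have hdot : ∀ i t, Tendsto (fun m => xs (φ m) i ⬝ᵥ (pv (φ m)).2 t) atTop
      (𝓝 (x i ⬝ᵥ a.2 t)) := fun i t =>
    tendsto_finsetSum _ fun c _ => (hxic i c).mul (hv t c)
  refine ⟨a.1, a.2, ⟨?_, ?_, ?_, ?_, ?_, ?_, ?_⟩⟩
  · intro t
    exact ge_of_tendsto' (hp t) fun m => (hpv (φ m)).nonneg t
  · exact tendsto_nhds_unique (tendsto_finsetSum _ fun t _ => hp t)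
      (by simp_rw [(hpv _).sum_one]; exact tendsto_const_nhds)
  · intro t ht
    exact tendsto_nhds_unique (hp t)
      (by simp_rw [(hpv _).inj t ht]; exact tendsto_const_nhds)
  · intro t b
    exact tendsto_nhds_unique ((hp t).mul ((hdot (t b) t).sub_const 1))
      (by simp_rw [(hpv _).tight t b]; exact tendsto_const_nhds)
  · intro t j
    exact le_of_tendsto' ((hp t).mul ((hdot j t).sub_const 1)) fun m => (hpv (φ m)).feas t j
  · intro c
    exact tendsto_nhds_unique (tendsto_finsetSum _ fun t _ => (hp t).mul (hv t c))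
      (by simp_rw [(hpv _).mean c]; exact tendsto_const_nhds)
  · intro c d
    exact tendsto_nhds_unique (tendsto_finsetSum _ fun t _ =>
      ((hp t).mul (hv t c)).mul (tendsto_finsetSum _ fun b _ => hxic (t b) d))
      (by simp_rw [(hpv _).cross c d]; exact tendsto_const_nhds)

end Pool.Agent.Helper66.CapCover
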