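import Mathlib
import Pool.Agent.Helper66.CapCover.Perturb

/-!
# The inequality and the analysis of equality
-/

set_option autoImplicit false

open Finset Filter Topology
open scoped InnerProductSpace

namespace Pool.Agent.Helper66.CapCover

variable {n N : ℕ}

/-- The measure in the Euclidean space. -/
structure IsMeasE (x : Fin N → EuclideanSpace ℝ (Fin n)) (p : (Fin n → Fin N) → ℝ)
    (v : (Fin n → Fin N) → EuclideanSpace ℝ (Fin n)) : Prop where
  nonneg : ∀ t, 0 ≤ p t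
  sum_one : ∑ t, p t = 1
  inj : ∀ t, p t ≠ 0 → Function.Injective t
  tight : ∀ t, p t ≠ 0 → ∀ b, ⟪x (t b), v t⟫_ℝ = 1
  feas : ∀ t, p t ≠ 0 → ∀ j, ⟪x j, v t⟫_ℝ ≤ 1
  mean : ∀ y, ∑ t, p t * ⟪v t, y⟫_ℝ = 0
  cross : ∀ y z, ∑ t, p t * ⟪v t, y⟫_ℝ * ⟪∑ b, x (t b), z⟫_ℝ = ⟪y, z⟫_ℝ

theorem inner_eq_dot (x y : EuclideanSpace ℝ (Fin n)) : ⟪x, y⟫_ℝ = x.ofLp ⬝ᵥ y.ofLp := by
  rw [PiLp.inner_apply]
  simp [dotProduct, mul_comm]

theorem exists_measE (x : Fin N → EuclideanSpace ℝ (Fin n)) (hn : 0 < n)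
    (hpos : ∀ y : EuclideanSpace ℝ (Fin n), y ≠ 0 → ∃ i, 0 < ⟪x i, y⟫_ℝ) :
    ∃ p v, IsMeasE x p v := by
  obtain ⟨p, v, h⟩ := exists_meas (fun i => (x i).ofLp) hn (fun y hy => by
    obtain ⟨i, hi⟩ := hpos (WithLp.toLp 2 y) (by
      intro h0
      apply hy
      have := congrArg WithLp.ofLp h0
      simpa using this)
    exact ⟨i, by rw [inner_eq_dot] at hi; exact hi⟩)
  have hsum : ∀ t : Fin n → Fin N, ∀ d, (∑ b, x (t b)).ofLp d = ∑ b, (x (t b)).ofLp d := by
    intro t d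
    rw [WithLp.ofLp_sum, Finset.sum_apply]
  refine ⟨p, fun t => WithLp.toLp 2 (v t), ⟨h.nonneg, h.sum_one, ?_, ?_, ?_, ?_, ?_⟩⟩
  · intro t ht
    by_contra hc
    exact ht (h.inj t hc)
  · intro t ht b
    rw [inner_eq_dot]
    rcases mul_eq_zero.1 (h.tight t b) with h1 | h1
    · exact absurd h1 ht
    · exact sub_eq_zero.1 h1
  · intro t ht j
    rw [inner_eq_dot]
    have h1 := h.feas t j
    have h2 : 0 < p t := lt_of_le_of_ne (h.nonneg t) (Ne.symm ht)
    by_contra hc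
    have h3 : 0 < (x j).ofLp ⬝ᵥ v t - 1 := sub_pos.2 (not_le.1 hc)
    exact absurd h1 (not_le.2 (mul_pos h2 h3))
  · intro y
    simp_rw [inner_eq_dot, dotProduct, Finset.mul_sum]
    rw [Finset.sum_comm]
    apply Finset.sum_eq_zero
    intro c _
    have h1 := h.mean c
    simp_rw [← mul_assoc]
    rw [← Finset.sum_mul, h1, zero_mul]
  · intro y z
    have h1 : ∀ t : Fin n → Fin N, p t * ⟪WithLp.toLp 2 (v t), y⟫_ℝ * ⟪∑ b, x (t b), z⟫_ℝ =
        ∑ c, ∑ d, (p t * v t c * (∑ b, (x (t b)).ofLp d)) * (y.ofLp c * z.ofLp d) := by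
      intro t
      rw [inner_eq_dot, inner_eq_dot]
      simp only [dotProduct]
      rw [mul_assoc, Finset.sum_mul_sum, Finset.mul_sum]
      apply Finset.sum_congr rfl
      intro c _
      rw [Finset.mul_sum]
      apply Finset.sum_congr rfl
      intro d _
      rw [hsum]
      ring
    simp_rw [h1]
    rw [Finset.sum_comm]
    have h2 : ∀ c d : Fin n, ∑ t, (p t * v t c * (∑ b, (x (t b)).ofLp d)) * (y.ofLp c * z.ofLp d) =
        (if c = d then 1 else 0) * (y.ofLp c * z.ofLp d) := by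
      intro c d
      rw [← Finset.sum_mul, h.cross c d]
    have h3 : ∀ c : Fin n, ∑ t, ∑ d, (p t * v t c * (∑ b, (x (t b)).ofLp d)) *
        (y.ofLp c * z.ofLp d) = y.ofLp c * z.ofLp c := by
      intro c
      rw [Finset.sum_comm]
      simp_rw [h2]
      simp
    simp_rw [h3]
    rw [inner_eq_dot]
    rfl

open Classical in
/-- Indicator of the complement of the basis. -/
noncomputable def Jt (t : Fin n → Fin N) (j : Fin N) : ℝ := if j ∈ Set.range t then 0 else 1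

theorem Jt_range (t : Fin n → Fin N) (b : Fin n) : Jt t (t b) = 0 := by
  unfold Jt; rw [if_pos ⟨b, rfl⟩]

theorem Jt_sq (t : Fin n → Fin N) (j : Fin N) : Jt t j * Jt t j = Jt t j := by
  unfold Jt; split_ifs <;> simp

theorem Jt_nonneg (t : Fin n → Fin N) (j : Fin N) : 0 ≤ Jt t j := by
  unfold Jt; split_ifs <;> simp

theorem Jt_le_one (t : Fin n → Fin N) (j : Fin N) : Jt t j ≤ 1 := by
  unfold Jt; split_ifs <;> simp

theorem sum_one_sub_Jt {M : Type} [AddCommGroup M] [Module ℝ M] (t : Fin n → Fin N)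
    (ht : Function.Injective t) (f : Fin N → M) :
    ∑ j, (1 - Jt t j) • f j = ∑ b, f (t b) := by
  classical
  have h1 : ∑ b, f (t b) = ∑ j ∈ univ.image t, f j := by
    rw [Finset.sum_image (fun a _ b _ h => ht h)]
  rw [h1, ← Finset.sum_subset (Finset.subset_univ (univ.image t))]
  · apply Finset.sum_congr rfl
    intro j hj
    obtain ⟨b, -, rfl⟩ := Finset.mem_image.1 hj
    rw [Jt_range]; simp
  · intro j _ hj
    have : Jt t j = 1 := by
      unfold Jt
      rw [if_neg]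
      rintro ⟨b, rfl⟩
      exact hj (Finset.mem_image_of_mem _ (mem_univ b))
    rw [this]; simp

theorem sum_Jt (t : Fin n → Fin N) (ht : Function.Injective t) :
    ∑ j, Jt t j = (N : ℝ) - n := by
  have h1 := sum_one_sub_Jt t ht (fun _ => (1 : ℝ))
  simp only [smul_eq_mul, mul_one, Finset.sum_sub_distrib, Finset.sum_const, Finset.card_univ,
    Fintype.card_fin, nsmul_eq_mul] at h1
  linarith

/-- The probability that `j` is not in the basis. -/
noncomputable def mu (p : (Fin n → Fin N) → ℝ) (j : Fin N) : ℝ := ∑ t, p t * Jt t j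

section

variable {x : Fin N → EuclideanSpace ℝ (Fin n)} {p : (Fin n → Fin N) → ℝ}
  {v : (Fin n → Fin N) → EuclideanSpace ℝ (Fin n)}

theorem IsMeasE.mu_nonneg (h : IsMeasE x p v) (j : Fin N) : 0 ≤ mu p j :=
  Finset.sum_nonneg fun t _ => mul_nonneg (h.nonneg t) (Jt_nonneg t j)

theorem IsMeasE.mu_le_one (h : IsMeasE x p v) (j : Fin N) : mu p j ≤ 1 := by
  rw [← h.sum_one]
  exact Finset.sum_le_sum fun t _ => mul_le_of_le_one_right (h.nonneg t) (Jt_le_one t j)

theorem IsMeasE.sum_mu (h : IsMeasE x p v) : ∑ j, mu p j = (N : ℝ) - n := by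
  unfold mu
  rw [Finset.sum_comm]
  have h1 : ∀ t, ∑ j, p t * Jt t j = p t * ((N : ℝ) - n) := by
    intro t
    rw [← Finset.mul_sum]
    by_cases ht : p t = 0
    · rw [ht]; simp
    · rw [sum_Jt t (h.inj t ht)]
  simp_rw [h1]
  rw [← Finset.sum_mul, h.sum_one, one_mul]

theorem IsMeasE.Jt_eq_zero (h : IsMeasE x p v) {j : Fin N} (hj : mu p j = 0)
    (t : Fin n → Fin N) (ht : p t ≠ 0) : Jt t j = 0 := by
  unfold mu at hj
  rw [Finset.sum_eq_zero_iff_of_nonneg
    (fun t _ => mul_nonneg (h.nonneg t) (Jt_nonneg t j))] at hj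
  exact (mul_eq_zero.1 (hj t (mem_univ t))).resolve_left ht

/-- The centred sum over the complement of the basis. -/
noncomputable def gv (x : Fin N → EuclideanSpace ℝ (Fin n)) (p : (Fin n → Fin N) → ℝ)
    (t : Fin n → Fin N) : EuclideanSpace ℝ (Fin n) := ∑ j, (Jt t j - mu p j) • x j

theorem gv_eq (x : Fin N → EuclideanSpace ℝ (Fin n)) (p : (Fin n → Fin N) → ℝ)
    (t : Fin n → Fin N) (ht : Function.Injective t) :
    gv x p t = ∑ j, (1 - mu p j) • x j - ∑ b, x (t b) := by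
  rw [← sum_one_sub_Jt t ht x, ← Finset.sum_sub_distrib]
  apply Finset.sum_congr rfl
  intro j _
  rw [← sub_smul]
  congr 1
  ring

theorem IsMeasE.cross_gv (h : IsMeasE x p v) (y z : EuclideanSpace ℝ (Fin n)) :
    ∑ t, p t * ⟪v t, y⟫_ℝ * ⟪gv x p t, z⟫_ℝ = -⟪y, z⟫_ℝ := by
  have h1 : ∀ t, p t * ⟪v t, y⟫_ℝ * ⟪gv x p t, z⟫_ℝ =
      p t * ⟪v t, y⟫_ℝ * ⟪∑ j, (1 - mu p j) • x j, z⟫_ℝ -
        p t * ⟪v t, y⟫_ℝ * ⟪∑ b, x (t b), z⟫_ℝ := by
    intro t
    by_cases ht : p t = 0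
    · rw [ht]; simp
    · rw [gv_eq x p t (h.inj t ht), inner_sub_left]; ring
  simp_rw [h1]
  rw [Finset.sum_sub_distrib, ← Finset.sum_mul, h.mean y, h.cross y z]
  ring

/-- The second moment operator `y ↦ ∑ μ_j ⟨x_j, y⟩ x_j`. -/
noncomputable def Top (x : Fin N → EuclideanSpace ℝ (Fin n)) (m : Fin N → ℝ) :
    EuclideanSpace ℝ (Fin n) →ₗ[ℝ] EuclideanSpace ℝ (Fin n) where
  toFun y := ∑ j, (m j * ⟪x j, y⟫_ℝ) • x j
  map_add' y z := by
    rw [← Finset.sum_add_distrib]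
    apply Finset.sum_congr rfl
    intro j _
    rw [inner_add_right, mul_add, add_smul]
  map_smul' c y := by
    rw [Finset.smul_sum]
    apply Finset.sum_congr rfl
    intro j _
    rw [inner_smul_right, smul_smul]
    simp only [RingHom.id_apply]
    congr 1
    ring

theorem Top_apply (x : Fin N → EuclideanSpace ℝ (Fin n)) (m : Fin N → ℝ)
    (y : EuclideanSpace ℝ (Fin n)) : Top x m y = ∑ j, (m j * ⟪x j, y⟫_ℝ) • x j := rfl

theorem inner_Top (x : Fin N → EuclideanSpace ℝ (Fin n)) (m : Fin N → ℝ)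
    (y z : EuclideanSpace ℝ (Fin n)) :
    ⟪Top x m y, z⟫_ℝ = ∑ j, m j * ⟪x j, y⟫_ℝ * ⟪x j, z⟫_ℝ := by
  rw [Top_apply, sum_inner]
  apply Finset.sum_congr rfl
  intro j _
  rw [inner_smul_left]
  simp

theorem Top_symm (x : Fin N → EuclideanSpace ℝ (Fin n)) (m : Fin N → ℝ) :
    (Top x m).IsSymmetric := by
  intro y z
  rw [inner_Top, real_inner_comm, inner_Top]
  apply Finset.sum_congr rfl
  intro j _
  ring

end

end Pool.Agent.Helper66.CapCover
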