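import Mathlib
import Pool.Agent.Helper66.CapCover.Ineq

/-!
# The main inequality
-/

set_option autoImplicit false

open Finset Filter Topology
open scoped InnerProductSpace

namespace Pool.Agent.Helper66.CapCover

variable {n N : ℕ}

variable {x : Fin N → EuclideanSpace ℝ (Fin n)} {p : (Fin n → Fin N) → ℝ}
  {v : (Fin n → Fin N) → EuclideanSpace ℝ (Fin n)}

/-- The approximate solution of `T y = g`. -/
noncomputable def yv (b : OrthonormalBasis (Fin n) ℝ (EuclideanSpace ℝ (Fin n)))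
    (lam : Fin n → ℝ) (g : EuclideanSpace ℝ (Fin n)) : EuclideanSpace ℝ (Fin n) :=
  ∑ a, (⟪g, b a⟫_ℝ / lam a) • b a

theorem inner_yv (b : OrthonormalBasis (Fin n) ℝ (EuclideanSpace ℝ (Fin n)))
    (lam : Fin n → ℝ) (g z : EuclideanSpace ℝ (Fin n)) :
    ⟪yv b lam g, z⟫_ℝ = ∑ a, ⟪g, b a⟫_ℝ / lam a * ⟪b a, z⟫_ℝ := by
  unfold yv
  rw [sum_inner]
  apply Finset.sum_congr rfl
  intro a _
  rw [inner_smul_left]; simp

theorem Top_yv (b : OrthonormalBasis (Fin n) ℝ (EuclideanSpace ℝ (Fin n)))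
    (lam : Fin n → ℝ) (m : Fin N → ℝ) (hlam : ∀ a, lam a ≠ 0)
    (hb : ∀ a, Top x m (b a) = lam a • b a) (g : EuclideanSpace ℝ (Fin n)) :
    Top x m (yv b lam g) = g := by
  unfold yv
  rw [map_sum]
  have h1 : ∀ a, Top x m ((⟪g, b a⟫_ℝ / lam a) • b a) = ⟪b a, g⟫_ℝ • b a := by
    intro a
    rw [map_smul, hb a, smul_smul, div_mul_cancel₀ _ (hlam a), real_inner_comm]
  simp_rw [h1]
  exact b.sum_repr' g

/-- Sum of the weighted squares of the deviations. -/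
theorem sum_dev (h : IsMeasE x p v) (b : OrthonormalBasis (Fin n) ℝ (EuclideanSpace ℝ (Fin n)))
    (lam : Fin n → ℝ) (hlam : ∀ a, lam a ≠ 0)
    (hb : ∀ a, Top x (mu p) (b a) = lam a • b a) (t : Fin n → Fin N) (ht : p t ≠ 0) :
    ∑ a, ⟪gv x p t, b a⟫_ℝ ^ 2 / lam a =
      ∑ j, (Jt t j - mu p j) ^ 2 / mu p j -
        ∑ j, mu p j * ((Jt t j - mu p j) / mu p j - ⟪x j, yv b lam (gv x p t)⟫_ℝ) ^ 2 := by
  set g := gv x p t with hg
  set y := yv b lam g with hy
  have h1 : ⟪y, g⟫_ℝ = ∑ a, ⟪g, b a⟫_ℝ ^ 2 / lam a := by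
    rw [hy, inner_yv]
    apply Finset.sum_congr rfl
    intro a _
    rw [real_inner_comm g (b a)]
    ring
  have h2 : ⟪Top x (mu p) y, y⟫_ℝ = ⟪g, y⟫_ℝ := by rw [hy, Top_yv b lam _ hlam hb]
  have h3 : ⟪g, y⟫_ℝ = ∑ j, (Jt t j - mu p j) * ⟪x j, y⟫_ℝ := by
    rw [hg]
    unfold gv
    rw [sum_inner]
    apply Finset.sum_congr rfl
    intro j _
    rw [inner_smul_left]; simp
  rw [inner_Top] at h2
  have h4 : ∀ j, mu p j * ((Jt t j - mu p j) / mu p j - ⟪x j, y⟫_ℝ) ^ 2 =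
      (Jt t j - mu p j) ^ 2 / mu p j - 2 * ((Jt t j - mu p j) * ⟪x j, y⟫_ℝ) +
        mu p j * ⟪x j, y⟫_ℝ * ⟪x j, y⟫_ℝ := by
    intro j
    by_cases hj : mu p j = 0
    · rw [hj, h.Jt_eq_zero hj t ht]; simp
    · field_simp
      ring
  simp_rw [h4]
  rw [Finset.sum_add_distrib, Finset.sum_sub_distrib, ← Finset.mul_sum, ← h3, h2, ← h1,
    real_inner_comm y g]
  ring

/-- The average of the weighted squares of the centred indicators. -/
theorem avg_dev (h : IsMeasE x p v) :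
    ∑ t, p t * ∑ j, (Jt t j - mu p j) ^ 2 / mu p j =
      n - ∑ j, (if mu p j = 0 then (1 : ℝ) else 0) := by
  classical
  have h1 : ∀ j, ∑ t, p t * ((Jt t j - mu p j) ^ 2 / mu p j) =
      (1 - mu p j) - (if mu p j = 0 then (1 : ℝ) else 0) := by
    intro j
    by_cases hj : mu p j = 0
    · rw [if_pos hj, hj]; simp
    · rw [if_neg hj, sub_zero]
      have h2 : ∀ t, p t * ((Jt t j - mu p j) ^ 2 / mu p j) =
          (p t * Jt t j) * ((1 - 2 * mu p j) / mu p j) + p t * mu p j := by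
        intro t
        have h3 : (Jt t j - mu p j) ^ 2 = Jt t j * (1 - 2 * mu p j) + mu p j * mu p j := by
          have := Jt_sq t j
          nlinarith
        rw [h3]
        field_simp
      simp_rw [h2]
      rw [Finset.sum_add_distrib, ← Finset.sum_mul, ← Finset.sum_mul, h.sum_one]
      have h4 : ∑ t, p t * Jt t j = mu p j := rfl
      rw [h4]
      field_simp
      ring
  simp_rw [Finset.mul_sum]
  rw [Finset.sum_comm]
  simp_rw [h1]
  rw [Finset.sum_sub_distrib, Finset.sum_sub_distrib, h.sum_mu]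
  simp

theorem scal (c l : ℝ) (hc : c ≠ 0) (hl : l ≠ 0) :
    (c - l) ^ 2 * (2 * c + l) / ((c * c) ^ 2 * l) =
      2 / (c * l) - 3 / (c * c) + (l * l) / (c * c) ^ 2 := by
  field_simp
  ring

theorem key_ineq (h : IsMeasE x p v) (hx : ∀ j, ‖x j‖ ≤ 1) (hn : 0 < n) (hN : n < N) :
    ∃ (b : OrthonormalBasis (Fin n) ℝ (EuclideanSpace ℝ (Fin n))) (lam : Fin n → ℝ),
      (∀ a, 0 < lam a) ∧ (∀ a, Top x (mu p) (b a) = lam a • b a) ∧
      (n : ℝ) ^ 2 / ((N : ℝ) - n) +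
        ∑ t, p t * ∑ a, (⟪v t, b a⟫_ℝ + ⟪gv x p t, b a⟫_ℝ /
          (√(((N : ℝ) - n) / n) * √(lam a))) ^ 2 +
        ∑ a, (√(((N : ℝ) - n) / n) - √(lam a)) ^ 2 *
          (2 * √(((N : ℝ) - n) / n) + √(lam a)) / ((((N : ℝ) - n) / n) ^ 2 * √(lam a)) +
        (∑ j, (if mu p j = 0 then (1 : ℝ) else 0) +
          ∑ t, p t * ∑ j, mu p j * ((Jt t j - mu p j) / mu p j -
            ⟪x j, yv b lam (gv x p t)⟫_ℝ) ^ 2) / (((N : ℝ) - n) / n)
        ≤ ∑ t, p t * ‖v t‖ ^ 2 := by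
  classical
  have hn' : (0 : ℝ) < n := by exact_mod_cast hn
  have hk : (0 : ℝ) < (N : ℝ) - n := by
    have : (n : ℝ) < N := by exact_mod_cast hN
    linarith
  set k : ℝ := (N : ℝ) - n with hkdef
  set κ : ℝ := k / n with hκ
  have hκpos : 0 < κ := div_pos hk hn'
  set c := √κ with hc
  have hcpos : 0 < c := Real.sqrt_pos.2 hκpos
  have hcc : c * c = κ := Real.mul_self_sqrt hκpos.le
  have hfr : Module.finrank ℝ (EuclideanSpace ℝ (Fin n)) = n := by simp
  let b := (Top_symm x (mu p)).eigenvectorBasis hfr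
  let lam := (Top_symm x (mu p)).eigenvalues hfr
  have hb : ∀ a, Top x (mu p) (b a) = lam a • b a := fun a =>
    (Top_symm x (mu p)).apply_eigenvectorBasis hfr a
  have hlamform : ∀ a, lam a = ∑ j, mu p j * ⟪x j, b a⟫_ℝ * ⟪x j, b a⟫_ℝ := by
    intro a
    rw [← inner_Top, hb a, inner_smul_left]
    simp
  have hlam0 : ∀ a, 0 ≤ lam a := by
    intro a
    rw [hlamform a]
    apply Finset.sum_nonneg
    intro j _
    rw [mul_assoc]
    exact mul_nonneg (h.mu_nonneg j) (mul_self_nonneg _)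
  have hcr : ∀ a, ∑ t, p t * ⟪v t, b a⟫_ℝ * ⟪gv x p t, b a⟫_ℝ = -1 := by
    intro a
    rw [h.cross_gv (b a) (b a), real_inner_self_eq_norm_sq, b.norm_eq_one]
    norm_num
  have hlam : ∀ a, 0 < lam a := by
    intro a
    refine lt_of_le_of_ne (hlam0 a) (fun h0 => ?_)
    have h1 : ∀ j, mu p j * ⟪x j, b a⟫_ℝ * ⟪x j, b a⟫_ℝ = 0 := by
      have := hlamform a
      rw [← h0] at this
      have h2 := (Finset.sum_eq_zero_iff_of_nonneg (fun j _ => by
        rw [mul_assoc]; exact mul_nonneg (h.mu_nonneg j) (mul_self_nonneg _))).1 this.symm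
      exact fun j => h2 j (mem_univ j)
    have h3 : ∀ t, p t * ⟪v t, b a⟫_ℝ * ⟪gv x p t, b a⟫_ℝ = 0 := by
      intro t
      by_cases ht : p t = 0
      · rw [ht]; simp
      · have h4 : ⟪gv x p t, b a⟫_ℝ = 0 := by
          unfold gv
          rw [sum_inner]
          apply Finset.sum_eq_zero
          intro j _
          rw [inner_smul_left]
          rcases mul_eq_zero.1 (h1 j) with h5 | h5
          · rcases mul_eq_zero.1 h5 with h6 | h6
            · rw [h6, h.Jt_eq_zero h6 t ht]; simp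
            · rw [h6]; simp
          · rw [h5]; simp
        rw [h4, mul_zero]
    have h5 := hcr a
    simp_rw [h3] at h5
    simp at h5
  refine ⟨b, lam, hlam, hb, ?_⟩
  -- trace
  have htr : ∑ a, lam a ≤ k := by
    have h1 : ∑ a, lam a = ∑ j, mu p j * ‖x j‖ ^ 2 := by
      simp_rw [hlamform]
      rw [Finset.sum_comm]
      apply Finset.sum_congr rfl
      intro j _
      rw [← b.sum_sq_norm_inner_right (x j), Finset.mul_sum]
      apply Finset.sum_congr rfl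
      intro a _
      rw [Real.norm_eq_abs, sq_abs, real_inner_comm (b a) (x j)]
      ring
    rw [h1, hkdef, ← h.sum_mu]
    apply Finset.sum_le_sum
    intro j _
    have h2 : ‖x j‖ ^ 2 ≤ 1 := by
      have := hx j
      nlinarith [norm_nonneg (x j)]
    exact mul_le_of_le_one_right (h.mu_nonneg j) h2
  -- notation
  set Z0 := ∑ j, (if mu p j = 0 then (1 : ℝ) else 0) with hZ0
  set D := ∑ t, p t * ∑ j, mu p j * ((Jt t j - mu p j) / mu p j -
            ⟪x j, yv b lam (gv x p t)⟫_ℝ) ^ 2 with hD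
  have hsumG : ∑ t, p t * ∑ a, ⟪gv x p t, b a⟫_ℝ ^ 2 / lam a = n - Z0 - D := by
    have h1 : ∀ t, p t * ∑ a, ⟪gv x p t, b a⟫_ℝ ^ 2 / lam a =
        p t * ∑ j, (Jt t j - mu p j) ^ 2 / mu p j -
        p t * ∑ j, mu p j * ((Jt t j - mu p j) / mu p j -
            ⟪x j, yv b lam (gv x p t)⟫_ℝ) ^ 2 := by
      intro t
      by_cases ht : p t = 0
      · rw [ht]; simp
      · rw [sum_dev h b lam (fun a => (hlam a).ne') hb t ht]; ring
    simp_rw [h1]
    rw [Finset.sum_sub_distrib, avg_dev h]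
  have hL : ∑ t, p t * ‖v t‖ ^ 2 = ∑ t, p t * ∑ a, ⟪v t, b a⟫_ℝ ^ 2 := by
    apply Finset.sum_congr rfl
    intro t _
    rw [← b.sum_sq_norm_inner_right (v t)]
    congr 1
    apply Finset.sum_congr rfl
    intro a _
    rw [Real.norm_eq_abs, sq_abs, real_inner_comm]
  have hQ : ∑ t, p t * ∑ a, (⟪v t, b a⟫_ℝ + ⟪gv x p t, b a⟫_ℝ / (c * √(lam a))) ^ 2 =
      ∑ t, p t * ‖v t‖ ^ 2 - ∑ a, 2 / (c * √(lam a)) + (n - Z0 - D) / κ := by
    have h1 : ∀ t, p t * ∑ a, (⟪v t, b a⟫_ℝ + ⟪gv x p t, b a⟫_ℝ / (c * √(lam a))) ^ 2 =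
        p t * ∑ a, ⟪v t, b a⟫_ℝ ^ 2 +
        ∑ a, (2 / (c * √(lam a))) * (p t * ⟪v t, b a⟫_ℝ * ⟪gv x p t, b a⟫_ℝ) +
        (p t * ∑ a, ⟪gv x p t, b a⟫_ℝ ^ 2 / lam a) / κ := by
      intro t
      rw [Finset.mul_sum, Finset.mul_sum, Finset.mul_sum, Finset.sum_div,
        ← Finset.sum_add_distrib, ← Finset.sum_add_distrib]
      apply Finset.sum_congr rfl
      intro a _
      have h2 : √(lam a) ≠ 0 := (Real.sqrt_pos.2 (hlam a)).ne'
      have h3 : (c * √(lam a)) ^ 2 = κ * lam a := by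
        rw [mul_pow, sq, sq, hcc, Real.mul_self_sqrt (hlam a).le]
      have h4 : (⟪gv x p t, b a⟫_ℝ / (c * √(lam a))) ^ 2 = ⟪gv x p t, b a⟫_ℝ ^ 2 / lam a / κ := by
        rw [div_pow, h3]
        have := (hlam a).ne'
        have := hκpos.ne'
        field_simp
      rw [add_sq, h4]
      ring
    simp_rw [h1]
    rw [Finset.sum_add_distrib, Finset.sum_add_distrib, ← Finset.sum_div, hsumG, ← hL]
    rw [Finset.sum_comm]
    have h2 : ∀ a, ∑ t, (2 / (c * √(lam a))) * (p t * ⟪v t, b a⟫_ℝ * ⟪gv x p t, b a⟫_ℝ) =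
        -(2 / (c * √(lam a))) := by
      intro a
      rw [← Finset.mul_sum, hcr a]
      ring
    simp_rw [h2]
    rw [Finset.sum_neg_distrib]
    ring
  have hE : ∑ a, (c - √(lam a)) ^ 2 * (2 * c + √(lam a)) / (κ ^ 2 * √(lam a)) =
      ∑ a, 2 / (c * √(lam a)) - 3 * n / κ + (∑ a, lam a) / κ ^ 2 := by
    have h1 : ∀ a, (c - √(lam a)) ^ 2 * (2 * c + √(lam a)) / (κ ^ 2 * √(lam a)) =
        2 / (c * √(lam a)) - 3 / κ + lam a / κ ^ 2 := by
      intro a
      have h2 : √(lam a) ≠ 0 := (Real.sqrt_pos.2 (hlam a)).ne'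
      have h3 : lam a = √(lam a) * √(lam a) := (Real.mul_self_sqrt (hlam a).le).symm
      have h4 : c ≠ 0 := hcpos.ne'
      have h5 := scal c (√(lam a)) h4 h2
      rw [← h3, hcc] at h5
      exact h5
    simp_rw [h1]
    rw [Finset.sum_add_distrib, Finset.sum_sub_distrib, Finset.sum_div]
    simp only [Finset.sum_const, Finset.card_univ, Fintype.card_fin, nsmul_eq_mul]
    ring
  rw [hQ, hE]
  have hfin : (n : ℝ) ^ 2 / k = n / κ := by
    rw [hκ]; field_simp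
  have hfin2 : (∑ a, lam a) / κ ^ 2 ≤ n / κ := by
    rw [div_le_div_iff₀ (by positivity) hκpos]
    have : (n : ℝ) * κ = k := by rw [hκ]; field_simp
    calc (∑ a, lam a) * κ ≤ k * κ := by gcongr
      _ = n * κ ^ 2 := by rw [← this]; ring
  rw [hfin]
  have h5 : (n - Z0 - D) / κ + (Z0 + D) / κ = n / κ := by ring
  have h6 : 3 * (n : ℝ) / κ = 3 * (n / κ) := by ring
  linarith

end Pool.Agent.Helper66.CapCover
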