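import Mathlib

/-!
# Free sums of regular simplices (adapted from CapOrder, by helper72)
-/

set_option autoImplicit false

open scoped RealInnerProductSpace

namespace Pool.Agent.Helper66.CapCover.Lower

/-- The sum of the squares of the parts of the most balanced partition of `n` into `k` parts
(`n mod k` parts equal to `⌊n/k⌋ + 1`, the others equal to `⌊n/k⌋`). -/
def balancedSq (n k : ℕ) : ℕ := (n % k) * (n / k + 1) ^ 2 + (k - n % k) * (n / k) ^ 2

section Lower

variable {k : ℕ} (d : Fin k → ℕ)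

/-- index set: `k` blocks, block `b` has `d b + 1` elements -/
abbrev Idx : Type := Σ b : Fin k, Fin (d b + 1)

/-- block sums -/
noncomputable def blockSum : EuclideanSpace ℝ (Idx d) →ₗ[ℝ] (Fin k → ℝ) where
  toFun w b := ∑ j : Fin (d b + 1), w ⟨b, j⟩
  map_add' := by intro v w; ext b; simp [Finset.sum_add_distrib]
  map_smul' := by intro c w; ext b; simp [Finset.mul_sum]

theorem blockSum_surjective : Function.Surjective (blockSum d) := by
  intro c
  refine ⟨WithLp.toLp 2 (fun i : Idx d => if i.2 = 0 then c i.1 else 0), ?_⟩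
  ext b
  simp only [blockSum, LinearMap.coe_mk, AddHom.coe_mk]
  rw [Finset.sum_eq_single 0]
  · simp
  · intro j _ hj; simp [hj]
  · intro h; exact absurd (Finset.mem_univ _) h

theorem finrank_ker : Module.finrank ℝ (LinearMap.ker (blockSum d)) = ∑ b, d b := by
  have h1 := LinearMap.finrank_range_add_finrank_ker (blockSum d)
  have h2 : LinearMap.range (blockSum d) = ⊤ := LinearMap.range_eq_top.2 (blockSum_surjective d)
  rw [h2, finrank_top] at h1
  simp [Finset.sum_add_distrib] at h1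
  omega

/-- The vertices of the free sum of regular simplices -/
noncomputable def vert (i : Idx d) : EuclideanSpace ℝ (Idx d) :=
  WithLp.toLp 2 (fun i' : Idx d => if i'.1 = i.1 then
    Real.sqrt ((d i.1 + 1 : ℝ) / d i.1) * ((if i' = i then 1 else 0) - 1 / (d i.1 + 1 : ℝ)) else 0)

theorem sum_block (f : Idx d → ℝ) : ∑ i, f i = ∑ b, ∑ j, f ⟨b, j⟩ := by
  rw [Fintype.sum_sigma]

theorem vert_mem (i : Idx d) : vert d i ∈ LinearMap.ker (blockSum d) := by
  obtain ⟨b, j⟩ := i
  rw [LinearMap.mem_ker]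
  ext b'
  simp only [blockSum, vert, LinearMap.coe_mk, AddHom.coe_mk, Pi.zero_apply]
  by_cases h : b' = b
  · subst h
    simp only [if_true, Sigma.mk.injEq, heq_eq_eq, true_and]
    rw [← Finset.mul_sum, Finset.sum_sub_distrib]
    simp
    right
    field_simp
    simp
  · simp [h]

theorem inner_vert (i : Idx d) (w : EuclideanSpace ℝ (Idx d)) (hw : w ∈ LinearMap.ker (blockSum d)) :
    ⟪vert d i, w⟫ = Real.sqrt ((d i.1 + 1 : ℝ) / d i.1) * w i := by
  obtain ⟨b, j⟩ := i
  rw [LinearMap.mem_ker] at hw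
  have hb : ∑ j : Fin (d b + 1), w ⟨b, j⟩ = 0 := congrFun hw b
  rw [PiLp.inner_apply, sum_block]
  rw [Finset.sum_eq_single b]
  · simp only [vert, if_true, Sigma.mk.injEq, heq_eq_eq, true_and]
    have : ∀ j' : Fin (d b + 1), ⟪Real.sqrt ((d b + 1 : ℝ) / d b) *
        ((if j' = j then 1 else 0) - 1 / (d b + 1 : ℝ)), w ⟨b, j'⟩⟫
        = Real.sqrt ((d b + 1 : ℝ) / d b) * ((if j' = j then w ⟨b, j'⟩ else 0)
          - 1 / (d b + 1 : ℝ) * w ⟨b, j'⟩) := by
      intro j'
      simp only [RCLike.inner_apply, conj_trivial]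
      split_ifs <;> ring
    rw [Finset.sum_congr rfl (fun j' _ => this j'), ← Finset.mul_sum, Finset.sum_sub_distrib,
      ← Finset.mul_sum, hb]
    simp
  · intro b' _ hb'
    apply Finset.sum_eq_zero
    intro j' _
    simp [vert, hb']
  · intro h; exact absurd (Finset.mem_univ b) h

theorem norm_vert (i : Idx d) (hd : 1 ≤ d i.1) : ‖vert d i‖ = 1 := by
  have h1 : ⟪vert d i, vert d i⟫ = 1 := by
    rw [inner_vert d i _ (vert_mem d i)]
    have hd' : (0 : ℝ) < d i.1 := by exact_mod_cast hd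
    simp only [vert, if_true]
    rw [← mul_assoc, Real.mul_self_sqrt (by positivity)]
    field_simp
    ring
  rw [real_inner_self_eq_norm_sq] at h1
  have h2 := norm_nonneg (vert d i)
  nlinarith

/-- the covering property -/
theorem exists_large (hd : ∀ b, 1 ≤ d b) (hk : 1 ≤ k) (w : EuclideanSpace ℝ (Idx d))
    (hw : w ∈ LinearMap.ker (blockSum d)) (hw1 : ‖w‖ = 1) :
    ∃ i : Idx d, 1 / Real.sqrt (∑ b, (d b : ℝ) ^ 2) ≤ ⟪vert d i, w⟫ := by
  by_contra hcon
  have hcon : ∀ i : Idx d, ⟪vert d i, w⟫ < 1 / Real.sqrt (∑ b, (d b : ℝ) ^ 2) := by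
    intro i
    by_contra h
    exact hcon ⟨i, not_lt.mp h⟩
  have hdpos : ∀ b, (0 : ℝ) < d b := fun b => by exact_mod_cast hd b
  set D : ℝ := ∑ b, (d b : ℝ) ^ 2 with hD
  have : Nonempty (Fin k) := ⟨⟨0, by omega⟩⟩
  have hDpos : 0 < D := Finset.sum_pos (fun b _ => by have := hdpos b; positivity)
    Finset.univ_nonempty
  set t : ℝ := 1 / Real.sqrt D with ht
  have ht2 : t ^ 2 * D = 1 := by
    rw [ht, div_pow, Real.sq_sqrt hDpos.le]
    field_simp
  have htpos : 0 < t := by positivity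
  have hblock : ∀ b, ∑ j, (w ⟨b, j⟩) ^ 2 < t ^ 2 * (d b : ℝ) ^ 2 := by
    intro b
    have hb : ∑ j : Fin (d b + 1), w ⟨b, j⟩ = 0 := by
      rw [LinearMap.mem_ker] at hw
      exact congrFun hw b
    set c : ℝ := Real.sqrt ((d b + 1 : ℝ) / d b) with hc
    have hcpos : 0 < c := Real.sqrt_pos.2 (by have := hdpos b; positivity)
    have hc2 : c ^ 2 = (d b + 1 : ℝ) / d b := Real.sq_sqrt (by have := hdpos b; positivity)
    set τ : ℝ := t / c with hτ
    have hτ2 : τ ^ 2 * (d b + 1) = t ^ 2 * d b := by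
      rw [hτ, div_pow, hc2]
      have := hdpos b
      field_simp
    have hlt : ∀ j, 0 < τ - w ⟨b, j⟩ := by
      intro j
      have h1 := hcon ⟨b, j⟩
      rw [inner_vert d _ w hw] at h1
      simp only at h1
      rw [← hc] at h1
      have : w ⟨b, j⟩ < τ := by
        rw [hτ, lt_div_iff₀ hcpos]; linarith
      linarith
    have hsum : ∑ j : Fin (d b + 1), (τ - w ⟨b, j⟩) = (d b + 1) * τ := by
      rw [Finset.sum_sub_distrib, hb]; simp
    have hsq : ∑ j : Fin (d b + 1), (τ - w ⟨b, j⟩) ^ 2 < ((d b + 1) * τ) ^ 2 := by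
      rw [← hsum]
      have h2 : ∑ j : Fin (d b + 1), (τ - w ⟨b, j⟩) ^ 2
          < ∑ j : Fin (d b + 1), (τ - w ⟨b, j⟩) * ∑ j' : Fin (d b + 1), (τ - w ⟨b, j'⟩) := by
        apply Finset.sum_lt_sum
        · intro j _
          rw [sq]
          apply mul_le_mul_of_nonneg_left _ (hlt j).le
          exact Finset.single_le_sum (f := fun j => τ - w ⟨b, j⟩)
            (fun j' _ => (hlt j').le) (Finset.mem_univ j)
        · refine ⟨0, Finset.mem_univ _, ?_⟩
          rw [sq]
          apply mul_lt_mul_of_pos_left _ (hlt 0)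
          have hne : (Fin.last (d b)) ≠ 0 := by
            intro h
            have := congrArg Fin.val h
            simp at this
            have := hd b
            omega
          calc τ - w ⟨b, 0⟩ < (τ - w ⟨b, 0⟩) + (τ - w ⟨b, Fin.last (d b)⟩) := by
                have := hlt (Fin.last (d b)); linarith
            _ = ∑ j ∈ ({0, Fin.last (d b)} : Finset (Fin (d b + 1))), (τ - w ⟨b, j⟩) := by
                rw [Finset.sum_pair hne.symm]
            _ ≤ _ := Finset.sum_le_sum_of_subset_of_nonneg (Finset.subset_univ _)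
                (fun j _ _ => (hlt j).le)
      rw [← Finset.sum_mul, ← sq] at h2
      exact h2
    have hexp : ∑ j : Fin (d b + 1), (τ - w ⟨b, j⟩) ^ 2
        = (d b + 1) * τ ^ 2 + ∑ j, (w ⟨b, j⟩) ^ 2 := by
      have : ∀ j : Fin (d b + 1), (τ - w ⟨b, j⟩) ^ 2 = τ ^ 2 - 2 * τ * w ⟨b, j⟩ + (w ⟨b, j⟩) ^ 2 :=
        fun j => by ring
      rw [Finset.sum_congr rfl (fun j _ => this j), Finset.sum_add_distrib,
        Finset.sum_sub_distrib, ← Finset.mul_sum, hb]
      simp
    rw [hexp] at hsq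
    have : ((d b + 1) * τ) ^ 2 - (d b + 1) * τ ^ 2 = d b * (τ ^ 2 * (d b + 1)) := by ring
    have h3 : ∑ j, (w ⟨b, j⟩) ^ 2 < d b * (τ ^ 2 * (d b + 1)) := by linarith
    rw [hτ2] at h3
    calc _ < _ := h3
      _ = _ := by ring
  have htot : ‖w‖ ^ 2 < 1 := by
    rw [EuclideanSpace.norm_sq_eq, sum_block]
    calc ∑ b, ∑ j, ‖w ⟨b, j⟩‖ ^ 2 = ∑ b, ∑ j, (w ⟨b, j⟩) ^ 2 := by
          simp [Real.norm_eq_abs, sq_abs]
      _ < ∑ b, t ^ 2 * (d b : ℝ) ^ 2 := by
          apply Finset.sum_lt_sum_of_nonempty Finset.univ_nonempty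
          intro b _; exact hblock b
      _ = 1 := by rw [← Finset.mul_sum]; exact ht2
  rw [hw1] at htot
  norm_num at htot

end Lower

/-- the balanced partition of `n` into `k` parts -/
def balanced (n k : ℕ) : Fin k → ℕ := fun b => if (b : ℕ) < n % k then n / k + 1 else n / k

theorem sum_balanced_aux (n k : ℕ) (hk : 1 ≤ k) (f : ℕ → ℝ) :
    ∑ b : Fin k, f (balanced n k b) = (n % k : ℕ) * f (n / k + 1) + ((k - n % k : ℕ) : ℝ) * f (n / k) := by
  classical
  have hlt : n % k < k := Nat.mod_lt _ (by omega)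
  have h1 : ∀ b : Fin k, f (balanced n k b)
      = if (b : ℕ) < n % k then f (n / k + 1) else f (n / k) := by
    intro b; unfold balanced; split_ifs <;> rfl
  rw [Finset.sum_congr rfl (fun b _ => h1 b), Finset.sum_ite, Finset.sum_const, Finset.sum_const]
  have hcard : (Finset.univ.filter (fun b : Fin k => (b : ℕ) < n % k)).card = n % k := by
    rw [Fin.card_filter_val_lt]; omega
  have hcard2 : (Finset.univ.filter (fun b : Fin k => ¬ (b : ℕ) < n % k)).card = k - n % k := by
    have := Finset.card_filter_add_card_filter_not (s := (Finset.univ : Finset (Fin k)))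
      (fun b : Fin k => (b : ℕ) < n % k)
    rw [hcard, Finset.card_univ, Fintype.card_fin] at this
    omega
  rw [hcard, hcard2]
  simp

theorem sum_balanced (n k : ℕ) (hk : 1 ≤ k) : ∑ b, balanced n k b = n := by
  have h := sum_balanced_aux n k hk (fun x => (x : ℝ))
  have hlt : n % k < k := Nat.mod_lt _ (by omega)
  have h2 : (n % k : ℕ) * (n / k + 1) + (k - n % k) * (n / k) = n := by
    obtain ⟨r, hr⟩ : ∃ r, k = n % k + r := ⟨k - n % k, by omega⟩
    have h3 : k - n % k = r := by omega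
    rw [h3]
    have h4 := Nat.div_add_mod n k
    calc n % k * (n / k + 1) + r * (n / k) = (n % k + r) * (n / k) + n % k := by ring
      _ = k * (n / k) + n % k := by rw [← hr]
      _ = n := h4
  have h5 : ((∑ b, balanced n k b : ℕ) : ℝ) = (n : ℝ) := by
    rw [Nat.cast_sum, h]
    conv_rhs => rw [← h2]
    push_cast
    ring
  exact_mod_cast h5

theorem sumsq_balanced (n k : ℕ) (hk : 1 ≤ k) :
    ∑ b, (balanced n k b : ℝ) ^ 2 = (balancedSq n k : ℝ) := by
  have h := sum_balanced_aux n k hk (fun x => (x : ℝ) ^ 2)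
  rw [h]
  unfold balancedSq
  push_cast
  ring

/-- The free sum of regular simplices of dimensions `d b` gives a covering. -/
theorem exists_family {n k : ℕ} (hk : 1 ≤ k) (d : Fin k → ℕ) (hd : ∀ b, 1 ≤ d b)
    (hsum : ∑ b, d b = n) :
    ∃ x : Fin (n + k) → EuclideanSpace ℝ (Fin n), (∀ i, ‖x i‖ = 1) ∧
      ∀ y : EuclideanSpace ℝ (Fin n), ‖y‖ = 1 →
        ∃ i, 1 / Real.sqrt (∑ b, (d b : ℝ) ^ 2) ≤ ⟪x i, y⟫ := by
  classical
  have hfr : Module.finrank ℝ (EuclideanSpace ℝ (Fin n))
      = Module.finrank ℝ (LinearMap.ker (blockSum d)) := by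
    rw [finrank_ker, hsum]; simp
  let L : EuclideanSpace ℝ (Fin n) ≃ₗᵢ[ℝ] LinearMap.ker (blockSum d) :=
    (stdOrthonormalBasis ℝ (EuclideanSpace ℝ (Fin n))).equiv
      (stdOrthonormalBasis ℝ (LinearMap.ker (blockSum d))) (finCongr hfr)
  let v : Idx d → LinearMap.ker (blockSum d) := fun i => ⟨vert d i, vert_mem d i⟩
  have hcard : Fintype.card (Idx d) = n + k := by
    rw [Fintype.card_sigma]
    simp [Finset.sum_add_distrib, hsum]
  let e : Fin (n + k) ≃ Idx d := (Fintype.equivFinOfCardEq hcard).symm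
  refine ⟨fun i => L.symm (v (e i)), ?_, ?_⟩
  · intro i
    rw [LinearIsometryEquiv.norm_map, Submodule.coe_norm]
    exact norm_vert d (e i) (hd (e i).1)
  · intro y hy
    have hw1 : ‖((L y : LinearMap.ker (blockSum d)) : EuclideanSpace ℝ (Idx d))‖ = 1 := by
      rw [← Submodule.coe_norm, LinearIsometryEquiv.norm_map, hy]
    obtain ⟨i, hi⟩ := exists_large d hd hk _ (L y).2 hw1
    refine ⟨e.symm i, ?_⟩
    have h1 : ⟪L.symm (v i), y⟫ = ⟪vert d i, ((L y : LinearMap.ker (blockSum d)) :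
        EuclideanSpace ℝ (Idx d))⟫ := by
      rw [← LinearIsometryEquiv.inner_map_map L, LinearIsometryEquiv.apply_symm_apply,
        Submodule.coe_inner]
    simp only [Equiv.apply_symm_apply]
    rw [h1]
    exact hi

/-- The balanced family. -/
theorem exists_balanced_family (n k : ℕ) (hk : 1 ≤ k) (hkn : k ≤ n) :
    ∃ x : Fin (n + k) → EuclideanSpace ℝ (Fin n), (∀ i, ‖x i‖ = 1) ∧
      ∀ y : EuclideanSpace ℝ (Fin n), ‖y‖ = 1 →
        ∃ i, 1 / Real.sqrt (balancedSq n k) ≤ ⟪x i, y⟫ := by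
  rw [← sumsq_balanced n k hk]
  apply exists_family hk (balanced n k) _ (sum_balanced n k hk)
  intro b
  have : 1 ≤ n / k := Nat.div_pos hkn (by omega)
  unfold balanced
  split_ifs <;> omega

end Pool.Agent.Helper66.CapCover.Lower
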