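import Mathlib
import Pool.Agent.Helper66.CapCover.Main

/-!
# The covering bound and the case of equality
-/

set_option autoImplicit false

open Finset Filter Topology
open scoped InnerProductSpace

namespace Pool.Agent.Helper66.CapCover

variable {n N : ℕ}

variable {x : Fin N → EuclideanSpace ℝ (Fin n)} {p : (Fin n → Fin N) → ℝ}
  {v : (Fin n → Fin N) → EuclideanSpace ℝ (Fin n)}

theorem key_ineq_weak (h : IsMeasE x p v) (hx : ∀ j, ‖x j‖ ≤ 1) (hn : 0 < n) (hN : n < N) :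
    (n : ℝ) ^ 2 / ((N : ℝ) - n) ≤ ∑ t, p t * ‖v t‖ ^ 2 := by
  classical
  have hn' : (0 : ℝ) < n := by exact_mod_cast hn
  have hk : (0 : ℝ) < (N : ℝ) - n := by
    have : (n : ℝ) < N := by exact_mod_cast hN
    linarith
  obtain ⟨b, lam, hlam, -, hineq⟩ := key_ineq h hx hn hN
  refine le_trans ?_ hineq
  have hκ : 0 ≤ √(((N : ℝ) - n) / n) := Real.sqrt_nonneg _
  have h1 : 0 ≤ ∑ t, p t * ∑ a, (⟪v t, b a⟫_ℝ + ⟪gv x p t, b a⟫_ℝ /
          (√(((N : ℝ) - n) / n) * √(lam a))) ^ 2 :=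
    Finset.sum_nonneg fun t _ => mul_nonneg (h.nonneg t)
      (Finset.sum_nonneg fun a _ => sq_nonneg _)
  have h2 : 0 ≤ ∑ a, (√(((N : ℝ) - n) / n) - √(lam a)) ^ 2 *
          (2 * √(((N : ℝ) - n) / n) + √(lam a)) / ((((N : ℝ) - n) / n) ^ 2 * √(lam a)) :=
    Finset.sum_nonneg fun a _ => by positivity
  have h3 : 0 ≤ (∑ j, (if mu p j = 0 then (1 : ℝ) else 0) +
          ∑ t, p t * ∑ j, mu p j * ((Jt t j - mu p j) / mu p j -
            ⟪x j, yv b lam (gv x p t)⟫_ℝ) ^ 2) / (((N : ℝ) - n) / n) := by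
    apply div_nonneg _ (by positivity)
    apply add_nonneg
    · exact Finset.sum_nonneg fun j _ => by split_ifs <;> norm_num
    · exact Finset.sum_nonneg fun t _ => mul_nonneg (h.nonneg t)
        (Finset.sum_nonneg fun j _ => mul_nonneg (h.mu_nonneg j) (sq_nonneg _))
  linarith

/-- **The covering bound.**  For any `N > n` points in the unit ball of `ℝⁿ` there is a unit
vector `e` with `⟨x_i, e⟩ ≤ √(N - n) / n` for all `i`. -/
theorem cover_bound (x : Fin N → EuclideanSpace ℝ (Fin n)) (hx : ∀ j, ‖x j‖ ≤ 1)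
    (hn : 0 < n) (hN : n < N) :
    ∃ e : EuclideanSpace ℝ (Fin n), ‖e‖ = 1 ∧ ∀ i, ⟪x i, e⟫_ℝ ≤ √((N : ℝ) - n) / n := by
  classical
  have hn' : (0 : ℝ) < n := by exact_mod_cast hn
  have hk : (0 : ℝ) < (N : ℝ) - n := by
    have : (n : ℝ) < N := by exact_mod_cast hN
    linarith
  by_cases hpos : ∀ y : EuclideanSpace ℝ (Fin n), y ≠ 0 → ∃ i, 0 < ⟪x i, y⟫_ℝ
  · obtain ⟨p, v, h⟩ := exists_measE x hn hpos
    have h1 := key_ineq_weak h hx hn hN
    have h2 : ∃ t, p t ≠ 0 ∧ (n : ℝ) ^ 2 / ((N : ℝ) - n) ≤ ‖v t‖ ^ 2 := by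
      by_contra hc
      push Not at hc
      have h3 : ∑ t, p t * ‖v t‖ ^ 2 < ∑ t, p t * ((n : ℝ) ^ 2 / ((N : ℝ) - n)) := by
        have hex : ∃ t, p t ≠ 0 := by
          by_contra hc2
          push Not at hc2
          have := h.sum_one
          simp [hc2] at this
        obtain ⟨t0, ht0⟩ := hex
        apply Finset.sum_lt_sum
        · intro t _
          by_cases ht : p t = 0
          · rw [ht]; simp
          · exact mul_le_mul_of_nonneg_left (hc t ht).le (h.nonneg t)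
        · exact ⟨t0, mem_univ _, mul_lt_mul_of_pos_left (hc t0 ht0)
            (lt_of_le_of_ne (h.nonneg t0) (Ne.symm ht0))⟩
      rw [← Finset.sum_mul, h.sum_one, one_mul] at h3
      exact absurd h1 (not_le.2 h3)
    obtain ⟨t, ht, hv⟩ := h2
    have hsq : 0 < √((N : ℝ) - n) := Real.sqrt_pos.2 hk
    have hvn : n / √((N : ℝ) - n) ≤ ‖v t‖ := by
      apply le_of_sq_le_sq _ (norm_nonneg _)
      rw [div_pow, Real.sq_sqrt hk.le]
      exact hv
    have hv0 : 0 < ‖v t‖ := lt_of_lt_of_le (div_pos hn' hsq) hvn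
    refine ⟨‖v t‖⁻¹ • v t, ?_, ?_⟩
    · rw [norm_smul, norm_inv, norm_norm, inv_mul_cancel₀ hv0.ne']
    · intro i
      rw [inner_smul_right]
      calc ‖v t‖⁻¹ * ⟪x i, v t⟫_ℝ ≤ ‖v t‖⁻¹ * 1 :=
            mul_le_mul_of_nonneg_left (h.feas t ht i) (by positivity)
        _ = ‖v t‖⁻¹ := mul_one _
        _ ≤ (n / √((N : ℝ) - n))⁻¹ := inv_anti₀ (div_pos hn' hsq) hvn
        _ = √((N : ℝ) - n) / n := inv_div _ _
  · push Not at hpos
    obtain ⟨y, hy0, hy⟩ := hpos
    have hyn : 0 < ‖y‖ := norm_pos_iff.2 hy0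
    refine ⟨‖y‖⁻¹ • y, ?_, ?_⟩
    · rw [norm_smul, norm_inv, norm_norm, inv_mul_cancel₀ hyn.ne']
    · intro i
      rw [inner_smul_right]
      calc ‖y‖⁻¹ * ⟪x i, y⟫_ℝ ≤ 0 := mul_nonpos_of_nonneg_of_nonpos (by positivity) (hy i)
        _ ≤ _ := by positivity

/-- What equality gives. -/
theorem equality_data (h : IsMeasE x p v) (hx : ∀ j, ‖x j‖ = 1) (hn : 0 < n) (hN : n < N)
    (hb : ∀ t, p t ≠ 0 → ‖v t‖ ^ 2 ≤ (n : ℝ) ^ 2 / ((N : ℝ) - n)) :
    (∀ t, p t ≠ 0 → ∀ j, ⟪x j, v t⟫_ℝ = 1 - (N / ((N : ℝ) - n)) * Jt t j) ∧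
    (∀ y, ∑ j, ⟪x j, y⟫_ℝ • x j = ((N : ℝ) / n) • y) ∧ ∑ j, x j = 0 := by
  classical
  have hn' : (0 : ℝ) < n := by exact_mod_cast hn
  have hk : (0 : ℝ) < (N : ℝ) - n := by
    have : (n : ℝ) < N := by exact_mod_cast hN
    linarith
  obtain ⟨b, lam, hlam, hbas, hineq⟩ := key_ineq h (fun j => (hx j).le) hn hN
  set κ : ℝ := ((N : ℝ) - n) / n with hκ
  have hκpos : 0 < κ := div_pos hk hn'
  have hc : 0 < √κ := Real.sqrt_pos.2 hκpos
  have hL : ∑ t, p t * ‖v t‖ ^ 2 ≤ (n : ℝ) ^ 2 / ((N : ℝ) - n) := by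
    calc ∑ t, p t * ‖v t‖ ^ 2 ≤ ∑ t, p t * ((n : ℝ) ^ 2 / ((N : ℝ) - n)) := by
          apply Finset.sum_le_sum
          intro t _
          by_cases ht : p t = 0
          · rw [ht]; simp
          · exact mul_le_mul_of_nonneg_left (hb t ht) (h.nonneg t)
      _ = _ := by rw [← Finset.sum_mul, h.sum_one, one_mul]
  have p1 : ∀ t ∈ (univ : Finset (Fin n → Fin N)), 0 ≤ p t * ∑ a, (⟪v t, b a⟫_ℝ + ⟪gv x p t, b a⟫_ℝ /
          (√κ * √(lam a))) ^ 2 := fun t _ => mul_nonneg (h.nonneg t)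
      (Finset.sum_nonneg fun a _ => sq_nonneg _)
  have p2 : ∀ a ∈ (univ : Finset (Fin n)), 0 ≤ (√κ - √(lam a)) ^ 2 *
          (2 * √κ + √(lam a)) / (κ ^ 2 * √(lam a)) := fun a _ => by positivity
  have p3 : ∀ j ∈ (univ : Finset (Fin N)), (0 : ℝ) ≤ (if mu p j = 0 then (1 : ℝ) else 0) :=
    fun j _ => by split_ifs <;> norm_num
  have p4 : ∀ t ∈ (univ : Finset (Fin n → Fin N)), 0 ≤ p t * ∑ j, mu p j * ((Jt t j - mu p j) / mu p j -
            ⟪x j, yv b lam (gv x p t)⟫_ℝ) ^ 2 := fun t _ => mul_nonneg (h.nonneg t)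
        (Finset.sum_nonneg fun j _ => mul_nonneg (h.mu_nonneg j) (sq_nonneg _))
  have s1 := Finset.sum_nonneg p1
  have s2 := Finset.sum_nonneg p2
  have s3 := Finset.sum_nonneg p3
  have s4 := Finset.sum_nonneg p4
  have s34 := div_nonneg (add_nonneg s3 s4) hκpos.le
  have e1 := le_antisymm (by linarith) s1
  have e2 := le_antisymm (by linarith) s2
  have e34 := le_antisymm (by linarith) s34
  rw [div_eq_zero_iff] at e34
  have e34' := e34.resolve_right hκpos.ne'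
  have e3 := le_antisymm (by linarith) s3
  have e4 := le_antisymm (by linarith) s4
  rw [Finset.sum_eq_zero_iff_of_nonneg p1] at e1
  rw [Finset.sum_eq_zero_iff_of_nonneg p2] at e2
  rw [Finset.sum_eq_zero_iff_of_nonneg p3] at e3
  rw [Finset.sum_eq_zero_iff_of_nonneg p4] at e4
  -- eigenvalues
  have hlamκ : ∀ a, lam a = κ := by
    intro a
    have h1 := e2 a (mem_univ a)
    have h2 : 0 < √(lam a) := Real.sqrt_pos.2 (hlam a)
    rw [div_eq_zero_iff] at h1
    rcases h1 with h1 | h1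
    · rcases mul_eq_zero.1 h1 with h3 | h3
      · have h4 : √κ = √(lam a) := by
          have := pow_eq_zero_iff (two_ne_zero) |>.1 h3
          linarith
        have h5 := congrArg (fun s => s ^ 2) h4
        simp only [Real.sq_sqrt hκpos.le, Real.sq_sqrt (hlam a).le] at h5
        exact h5.symm
      · exact absurd h3 (by positivity)
    · exact absurd h1 (by positivity)
  have hmu : ∀ j, mu p j ≠ 0 := by
    intro j hj
    have := e3 j (mem_univ j)
    rw [if_pos hj] at this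
    exact one_ne_zero this
  have hgy : ∀ g, yv b lam g = κ⁻¹ • g := by
    intro g
    unfold yv
    conv_rhs => rw [← b.sum_repr' g]
    rw [Finset.smul_sum]
    apply Finset.sum_congr rfl
    intro a _
    rw [hlamκ a, smul_smul, real_inner_comm, div_eq_inv_mul]
  have hvg : ∀ t, p t ≠ 0 → v t = -(κ⁻¹ • gv x p t) := by
    intro t ht
    have h1 := (mul_eq_zero.1 (e1 t (mem_univ t))).resolve_left ht
    rw [Finset.sum_eq_zero_iff_of_nonneg (fun a _ => sq_nonneg _)] at h1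
    rw [← b.sum_repr' (v t), ← b.sum_repr' (gv x p t), Finset.smul_sum, ← Finset.sum_neg_distrib]
    apply Finset.sum_congr rfl
    intro a _
    have h2 := pow_eq_zero_iff (two_ne_zero) |>.1 (h1 a (mem_univ a))
    rw [hlamκ a, Real.mul_self_sqrt hκpos.le] at h2
    rw [smul_smul, ← neg_smul]
    congr 1
    rw [real_inner_comm (v t) (b a), real_inner_comm (gv x p t) (b a)]
    have h3 : ⟪v t, b a⟫_ℝ = -(⟪gv x p t, b a⟫_ℝ / κ) := by linarith
    rw [h3]; ring
  have hgv : ∀ t, p t ≠ 0 → gv x p t = -(κ • v t) := by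
    intro t ht
    rw [hvg t ht, smul_neg, smul_smul, mul_inv_cancel₀ hκpos.ne', one_smul, neg_neg]
  have hinner : ∀ t, p t ≠ 0 → ∀ j, ⟪x j, v t⟫_ℝ = 1 - Jt t j / mu p j := by
    intro t ht j
    have h1 := (mul_eq_zero.1 (e4 t (mem_univ t))).resolve_left ht
    rw [Finset.sum_eq_zero_iff_of_nonneg
      (fun j _ => mul_nonneg (h.mu_nonneg j) (sq_nonneg _))] at h1
    have h2 := (mul_eq_zero.1 (h1 j (mem_univ j))).resolve_left (hmu j)
    have h3 := pow_eq_zero_iff (two_ne_zero) |>.1 h2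
    rw [hgy, ← neg_neg (κ⁻¹ • gv x p t), ← hvg t ht, inner_neg_right] at h3
    have h4 : (Jt t j - mu p j) / mu p j = Jt t j / mu p j - 1 := by
      field_simp [hmu j]
    rw [h4] at h3
    linarith
  have hmuval : ∀ j, (mu p j)⁻¹ = N / ((N : ℝ) - n) := by
    intro j
    have h1 := h.cross_gv (x j) (x j)
    rw [real_inner_self_eq_norm_sq, hx j] at h1
    have h2 : ∀ t, p t * ⟪v t, x j⟫_ℝ * ⟪gv x p t, x j⟫_ℝ =
        -κ * (p t + (p t * Jt t j) * ((mu p j)⁻¹ * (mu p j)⁻¹ - 2 * (mu p j)⁻¹)) := by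
      intro t
      by_cases ht : p t = 0
      · rw [ht]; simp
      · rw [hgv t ht, inner_neg_left, inner_smul_left, real_inner_comm, hinner t ht j]
        simp only [conj_trivial]
        have h3 := Jt_sq t j
        have h4 : (1 - Jt t j / mu p j) * (1 - Jt t j / mu p j) =
            1 + Jt t j * ((mu p j)⁻¹ * (mu p j)⁻¹ - 2 * (mu p j)⁻¹) := by
          rw [div_eq_mul_inv]
          linear_combination ((mu p j)⁻¹ * (mu p j)⁻¹) * h3
        linear_combination (-κ * p t) * h4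
    simp_rw [h2] at h1
    rw [← Finset.mul_sum, Finset.sum_add_distrib, ← Finset.sum_mul, h.sum_one] at h1
    have h3 : ∑ t, p t * Jt t j = mu p j := rfl
    rw [h3] at h1
    have h4 : mu p j * ((mu p j)⁻¹ * (mu p j)⁻¹ - 2 * (mu p j)⁻¹) = (mu p j)⁻¹ - 2 := by
      field_simp [hmu j]
    rw [h4] at h1
    have h5 : κ * ((mu p j)⁻¹ - 1) = 1 := by linarith
    have h6 : (mu p j)⁻¹ = 1 + 1 / κ := by
      have h7 : (mu p j)⁻¹ - 1 = 1 / κ := by
        rw [eq_div_iff hκpos.ne']; linarith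
      linarith
    rw [h6, hκ]
    field_simp
    ring
  have hF1 : ∀ t, p t ≠ 0 → ∀ j, ⟪x j, v t⟫_ℝ = 1 - (N / ((N : ℝ) - n)) * Jt t j := by
    intro t ht j
    rw [hinner t ht j, div_eq_mul_inv, hmuval j]; ring
  refine ⟨hF1, ?_, ?_⟩
  · intro y
    have h1 : Top x (mu p) y = κ • y := by
      conv_lhs => rw [← b.sum_repr' y]
      conv_rhs => rw [← b.sum_repr' y]
      rw [map_sum, Finset.smul_sum]
      apply Finset.sum_congr rfl
      intro a _
      rw [map_smul, hbas a, hlamκ a, smul_comm]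
    rw [Top_apply] at h1
    have h2 : ∀ j, mu p j = ((N : ℝ) - n) / N := by
      intro j
      rw [← inv_inv (mu p j), hmuval j, inv_div]
    simp_rw [h2, ← smul_smul] at h1
    rw [← Finset.smul_sum] at h1
    have hNpos : (0 : ℝ) < N := by linarith
    have h3 := congrArg (fun z => (N / ((N : ℝ) - n)) • z) h1
    simp only [smul_smul] at h3
    have h4 : (N / ((N : ℝ) - n)) * (((N : ℝ) - n) / N) = 1 := by
      field_simp
    have h5 : (N / ((N : ℝ) - n)) * κ = N / n := by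
      rw [hκ]; field_simp
    rw [h4, h5, one_smul] at h3
    exact h3
  · have h0 : ∀ t, p t ≠ 0 → ⟪v t, ∑ j, x j⟫_ℝ = 0 := by
      intro t ht
      rw [inner_sum]
      have h1 : ∀ j, ⟪v t, x j⟫_ℝ = 1 - (N / ((N : ℝ) - n)) * Jt t j := by
        intro j; rw [real_inner_comm]; exact hF1 t ht j
      simp_rw [h1]
      rw [Finset.sum_sub_distrib, ← Finset.mul_sum, sum_Jt t (h.inj t ht)]
      simp only [Finset.sum_const, Finset.card_univ, Fintype.card_fin, nsmul_eq_mul, mul_one]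
      rw [div_mul_cancel₀ _ hk.ne', sub_self]
    have h1 := h.cross_gv (∑ j, x j) (∑ j, x j)
    have h2 : ∀ t, p t * ⟪v t, ∑ j, x j⟫_ℝ * ⟪gv x p t, ∑ j, x j⟫_ℝ = 0 := by
      intro t
      by_cases ht : p t = 0
      · rw [ht]; simp
      · rw [h0 t ht]; simp
    simp_rw [h2] at h1
    rw [Finset.sum_const_zero] at h1
    have h3 : ⟪∑ j, x j, ∑ j, x j⟫_ℝ = 0 := by linarith
    exact inner_self_eq_zero.1 h3

end Pool.Agent.Helper66.CapCover
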