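import Mathlib
import Pool.Agent.Helper66.CapCover.Equality

/-!
# The extremal configurations
-/

set_option autoImplicit false

open Finset Filter Topology
open scoped InnerProductSpace

namespace Pool.Agent.Helper66.CapCover

variable {n N : ℕ}

section

variable {x : Fin N → EuclideanSpace ℝ (Fin n)} (hn : 0 < n) (hN : n < N)
  (F2 : ∀ y, ∑ j, ⟪x j, y⟫_ℝ • x j = ((N : ℝ) / n) • y) (F3 : ∑ j, x j = 0)
  (hP : ∀ y : EuclideanSpace ℝ (Fin n), (∀ i, ⟪x i, y⟫_ℝ ≤ 1) →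
    ‖y‖ ^ 2 ≤ (n : ℝ) ^ 2 / ((N : ℝ) - n))
  {t : Fin n → Fin N} (ht : Function.Injective t) {w0 : EuclideanSpace ℝ (Fin n)}
  (F1 : ∀ j, ⟪x j, w0⟫_ℝ = 1 - (N / ((N : ℝ) - n)) * Jt t j)

include F2 in
theorem frame_inner (y z : EuclideanSpace ℝ (Fin n)) :
    ∑ j, ⟪x j, y⟫_ℝ * ⟪x j, z⟫_ℝ = ((N : ℝ) / n) * ⟪y, z⟫_ℝ := by
  have h1 := congrArg (fun u => ⟪u, z⟫_ℝ) (F2 y)
  simp only [sum_inner, inner_smul_left, conj_trivial] at h1
  exact h1

include F3 in
theorem sum_inner_zero (y : EuclideanSpace ℝ (Fin n)) : ∑ j, ⟪x j, y⟫_ℝ = 0 := by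
  rw [← sum_inner, F3, inner_zero_left]

include hn hN F2 ht F1 in
theorem norm_w0 : ‖w0‖ ^ 2 = (n : ℝ) ^ 2 / ((N : ℝ) - n) := by
  have hn' : (0 : ℝ) < n := by exact_mod_cast hn
  have hk : (0 : ℝ) < (N : ℝ) - n := by
    have : (n : ℝ) < N := by exact_mod_cast hN
    linarith
  have h1 := frame_inner F2 w0 w0
  rw [real_inner_self_eq_norm_sq] at h1
  simp_rw [F1] at h1
  have h2 : ∀ j, (1 - (N / ((N : ℝ) - n)) * Jt t j) * (1 - (N / ((N : ℝ) - n)) * Jt t j) =
      1 + Jt t j * ((N / ((N : ℝ) - n)) ^ 2 - 2 * (N / ((N : ℝ) - n))) := by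
    intro j
    have := Jt_sq t j
    linear_combination ((N / ((N : ℝ) - n)) ^ 2) * this
  simp_rw [h2] at h1
  rw [Finset.sum_add_distrib, ← Finset.sum_mul, sum_Jt t ht] at h1
  simp only [Finset.sum_const, Finset.card_univ, Fintype.card_fin, nsmul_eq_mul, mul_one] at h1
  have hNpos : (0 : ℝ) < N := by linarith
  have h3 : ‖w0‖ ^ 2 = (n / N) * (N + (N - n) * ((N / ((N : ℝ) - n)) ^ 2 -
      2 * (N / ((N : ℝ) - n)))) := by
    rw [h1]; field_simp
  rw [h3]
  field_simp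
  ring

include hn hN F2 hP ht F1 in
theorem basis_separates (w : EuclideanSpace ℝ (Fin n)) (hw : ∀ b, ⟪x (t b), w⟫_ℝ = 0)
    (hx : ∀ j, ‖x j‖ = 1) : w = 0 := by
  classical
  have hn' : (0 : ℝ) < n := by exact_mod_cast hn
  have hk : (0 : ℝ) < (N : ℝ) - n := by
    have : (n : ℝ) < N := by exact_mod_cast hN
    linarith
  by_contra hw0
  have hwn : 0 < ‖w‖ := norm_pos_iff.2 hw0
  -- choose a sign
  obtain ⟨w1, hw1n, hw1b, hw1p⟩ : ∃ w1 : EuclideanSpace ℝ (Fin n), ‖w1‖ = 1 ∧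
      (∀ b, ⟪x (t b), w1⟫_ℝ = 0) ∧ 0 ≤ ⟪w0, w1⟫_ℝ := by
    rcases le_total 0 ⟪w0, w⟫_ℝ with h | h
    · refine ⟨‖w‖⁻¹ • w, ?_, ?_, ?_⟩
      · rw [norm_smul, norm_inv, norm_norm, inv_mul_cancel₀ hwn.ne']
      · intro b; rw [inner_smul_right, hw b, mul_zero]
      · rw [inner_smul_right]; positivity
    · refine ⟨-(‖w‖⁻¹ • w), ?_, ?_, ?_⟩
      · rw [norm_neg, norm_smul, norm_inv, norm_norm, inv_mul_cancel₀ hwn.ne']
      · intro b; rw [inner_neg_right, inner_smul_right, hw b, mul_zero, neg_zero]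
      · rw [inner_neg_right, inner_smul_right]
        have : ‖w‖⁻¹ * ⟪w0, w⟫_ℝ ≤ 0 := mul_nonpos_of_nonneg_of_nonpos (by positivity) h
        linarith
  have h1 : ‖w0 + w1‖ ^ 2 ≤ (n : ℝ) ^ 2 / ((N : ℝ) - n) := by
    apply hP
    intro i
    rw [inner_add_right, F1 i]
    by_cases hi : i ∈ Set.range t
    · obtain ⟨b, rfl⟩ := hi
      rw [hw1b b, Jt_range]; simp
    · have h2 : Jt t i = 1 := by unfold Jt; rw [if_neg hi]
      have h3 : ⟪x i, w1⟫_ℝ ≤ 1 := by
        calc ⟪x i, w1⟫_ℝ ≤ ‖x i‖ * ‖w1‖ := real_inner_le_norm _ _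
          _ = 1 := by rw [hx i, hw1n, mul_one]
      have h4 : 1 ≤ N / ((N : ℝ) - n) := by
        rw [le_div_iff₀ hk]; linarith
      rw [h2]; linarith
  rw [norm_add_sq_real, norm_w0 hn hN F2 ht F1, hw1n] at h1
  linarith

include hn hN F2 F3 hP ht F1 in
theorem exists_partner (hx : ∀ j, ‖x j‖ = 1) (a : Fin n) :
    ∃ c : Fin N, c ∉ Set.range t ∧ ∀ l, ⟪x l, ((n : ℝ) / N) • (x c - x (t a))⟫_ℝ =
      (if l = c then 1 else 0) - (if l = t a then 1 else 0) := by
  classical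
  have hn' : (0 : ℝ) < n := by exact_mod_cast hn
  have hk : (0 : ℝ) < (N : ℝ) - n := by
    have : (n : ℝ) < N := by exact_mod_cast hN
    linarith
  have hNpos : (0 : ℝ) < N := by linarith
  -- dual vector
  let L : EuclideanSpace ℝ (Fin n) →ₗ[ℝ] (Fin n → ℝ) :=
    LinearMap.pi fun b => (innerₛₗ ℝ (x (t b)))
  have hL : ∀ y b, L y b = ⟪x (t b), y⟫_ℝ := fun y b => rfl
  have hLinj : Function.Injective L := by
    rw [← LinearMap.ker_eq_bot, LinearMap.ker_eq_bot']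
    intro w hw
    exact basis_separates hn hN F2 hP ht F1 w (fun b => by rw [← hL, hw]; rfl) hx
  have hLsurj : Function.Surjective L :=
    (LinearMap.injective_iff_surjective_of_finrank_eq_finrank (by simp)).1 hLinj
  obtain ⟨w, hw⟩ := hLsurj (fun b => if b = a then -1 else 0)
  have hwb : ∀ b, ⟪x (t b), w⟫_ℝ = if b = a then -1 else 0 := fun b => by
    rw [← hL, hw]
  -- the entering index
  let S : Finset (Fin N) := univ.filter fun j => j ∉ Set.range t
  have hsumJ : ∑ j, Jt t j * ⟪x j, w⟫_ℝ = 1 := by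
    have h1 := sum_one_sub_Jt t ht (fun j => ⟪x j, w⟫_ℝ)
    simp_rw [hwb] at h1
    simp only [Finset.sum_ite_eq', Finset.mem_univ, if_true, smul_eq_mul, sub_mul, one_mul,
      Finset.sum_sub_distrib] at h1
    rw [sum_inner_zero F3 w] at h1
    linarith
  have hsumS : ∑ j ∈ S, ⟪x j, w⟫_ℝ = 1 := by
    rw [← hsumJ, Finset.sum_filter]
    apply Finset.sum_congr rfl
    intro j _
    unfold Jt
    by_cases hj : j ∈ Set.range t
    · simp [hj]
    · simp only [hj, not_false_eq_true, if_true, if_false, one_mul]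
  have hS : S.Nonempty := by
    by_contra hc
    rw [Finset.not_nonempty_iff_eq_empty] at hc
    rw [hc, Finset.sum_empty] at hsumS
    exact zero_ne_one hsumS
  obtain ⟨c, hcS, hmax⟩ := S.exists_max_image (fun j => ⟪x j, w⟫_ℝ) hS
  have hcr : c ∉ Set.range t := by simpa [S] using hcS
  set m := ⟪x c, w⟫_ℝ with hm
  have hmpos : 0 < m := by
    by_contra hc
    have : ∑ j ∈ S, ⟪x j, w⟫_ℝ ≤ 0 := Finset.sum_nonpos fun j hj =>
      (hmax j hj).trans (not_lt.1 hc)
    rw [hsumS] at this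
    linarith
  set s := (N / ((N : ℝ) - n)) / m with hs
  have hspos : 0 < s := by positivity
  have hfeas : ‖w0 + s • w‖ ^ 2 ≤ (n : ℝ) ^ 2 / ((N : ℝ) - n) := by
    apply hP
    intro i
    rw [inner_add_right, inner_smul_right, F1 i]
    by_cases hi : i ∈ Set.range t
    · obtain ⟨b, rfl⟩ := hi
      rw [hwb b, Jt_range]
      split_ifs
      · linarith
      · linarith
    · have h2 : Jt t i = 1 := by unfold Jt; rw [if_neg hi]
      have h3 : ⟪x i, w⟫_ℝ ≤ m := hmax i (by simp [S]; exact fun y hy => hi ⟨y, hy⟩)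
      have h4 : s * ⟪x i, w⟫_ℝ ≤ N / ((N : ℝ) - n) := by
        calc s * ⟪x i, w⟫_ℝ ≤ s * m := mul_le_mul_of_nonneg_left h3 hspos.le
          _ = N / ((N : ℝ) - n) := by rw [hs, div_mul_cancel₀ _ hmpos.ne']
      rw [h2]; linarith
  have hw0w : ⟪w0, w⟫_ℝ = -(n / ((N : ℝ) - n)) := by
    have h1 := frame_inner F2 w0 w
    have h2 : ∀ j, ⟪x j, w0⟫_ℝ * ⟪x j, w⟫_ℝ =
        ⟪x j, w⟫_ℝ - (N / ((N : ℝ) - n)) * (Jt t j * ⟪x j, w⟫_ℝ) := by
      intro j; rw [F1 j]; ring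
    simp_rw [h2] at h1
    rw [Finset.sum_sub_distrib, ← Finset.mul_sum, hsumJ, sum_inner_zero F3 w] at h1
    have h3 : ⟪w0, w⟫_ℝ = ((n : ℝ) / N) * (((N : ℝ) / n) * ⟪w0, w⟫_ℝ) := by field_simp
    rw [h3, ← h1]
    field_simp
    ring
  rw [norm_add_sq_real, norm_w0 hn hN F2 ht F1, inner_smul_right, hw0w, norm_smul,
    mul_pow, Real.norm_eq_abs, sq_abs] at hfeas
  have hwsq := frame_inner F2 w w
  rw [real_inner_self_eq_norm_sq] at hwsq
  have hle : ∑ j, ⟪x j, w⟫_ℝ * ⟪x j, w⟫_ℝ ≤ 2 * m := by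
    rw [hwsq]
    have h1 : s * ‖w‖ ^ 2 ≤ 2 * (n / ((N : ℝ) - n)) := by
      have h2 : s * (s * ‖w‖ ^ 2) ≤ s * (2 * (n / ((N : ℝ) - n))) := by nlinarith
      exact le_of_mul_le_mul_left h2 hspos
    have h3 : s * ‖w‖ ^ 2 = (N / (((N : ℝ) - n) * m)) * ‖w‖ ^ 2 := by
      rw [hs, div_div]
    rw [h3] at h1
    have h4 : (N / (((N : ℝ) - n) * m)) * ‖w‖ ^ 2 * ((((N : ℝ) - n) * m) / n) ≤
        2 * (n / ((N : ℝ) - n)) * ((((N : ℝ) - n) * m) / n) :=
      mul_le_mul_of_nonneg_right h1 (by positivity)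
    have h5 : (N / (((N : ℝ) - n) * m)) * ‖w‖ ^ 2 * ((((N : ℝ) - n) * m) / n) =
        (N / n) * ‖w‖ ^ 2 := by field_simp
    have h6 : 2 * (n / ((N : ℝ) - n)) * ((((N : ℝ) - n) * m) / n) = 2 * m := by field_simp
    rw [h5, h6] at h4
    exact h4
  -- conclusion
  let e : Fin N → ℝ := fun l => (if l = c then 1 else 0) - (if l = t a then 1 else 0)
  have hcne : c ≠ t a := fun h => hcr ⟨a, h.symm⟩
  have he2 : ∑ j, e j * e j = 2 := by
    have h1 : ∀ j, e j * e j = (if j = c then 1 else 0) + (if j = t a then 1 else 0) := by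
      intro j
      simp only [e]
      by_cases h1 : j = c
      · have h2 : j ≠ t a := fun h => hcne (h1.symm.trans h)
        simp [h1, hcne]
      · by_cases h3 : j = t a
        · simp [h3, hcne.symm]
        · simp [h1, h3]
    simp_rw [h1]
    rw [Finset.sum_add_distrib]
    simp
    norm_num
  have hew : ∑ j, e j * ⟪x j, w⟫_ℝ = m + 1 := by
    have h1 : ∀ j, e j * ⟪x j, w⟫_ℝ = (if j = c then ⟪x j, w⟫_ℝ else 0) -
        (if j = t a then ⟪x j, w⟫_ℝ else 0) := by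
      intro j
      simp only [e]
      split_ifs <;> ring
    simp_rw [h1]
    rw [Finset.sum_sub_distrib]
    simp only [Finset.sum_ite_eq', Finset.mem_univ, if_true]
    rw [hwb a, if_pos rfl]
    ring
  have hzero : ∑ j, (⟪x j, w⟫_ℝ - e j) ^ 2 ≤ 0 := by
    have h1 : ∀ j, (⟪x j, w⟫_ℝ - e j) ^ 2 =
        ⟪x j, w⟫_ℝ * ⟪x j, w⟫_ℝ - 2 * (e j * ⟪x j, w⟫_ℝ) + e j * e j := by
      intro j; ring
    simp_rw [h1]
    rw [Finset.sum_add_distrib, Finset.sum_sub_distrib, ← Finset.mul_sum, hew, he2]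
    linarith
  have hall : ∀ j, ⟪x j, w⟫_ℝ = e j := by
    intro j
    have h1 := (Finset.sum_eq_zero_iff_of_nonneg
      (fun j _ => sq_nonneg (⟪x j, w⟫_ℝ - e j))).1 (le_antisymm hzero
        (Finset.sum_nonneg fun j _ => sq_nonneg _)) j (mem_univ j)
    have := pow_eq_zero_iff (two_ne_zero) |>.1 h1
    linarith
  have hwval : w = ((n : ℝ) / N) • (x c - x (t a)) := by
    have h1 := F2 w
    simp_rw [hall] at h1
    have h2 : ∑ j, e j • x j = x c - x (t a) := by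
      simp only [e, sub_smul, ite_smul, one_smul, zero_smul]
      rw [Finset.sum_sub_distrib]
      simp
    rw [h2] at h1
    rw [h1, smul_smul]
    have h3 : (n : ℝ) / N * (N / n) = 1 := by field_simp
    rw [h3, one_smul]
  exact ⟨c, hcr, fun l => by rw [← hwval]; exact hall l⟩

include hn hN F2 F3 hP ht F1 in
/-- The Gram matrix of the extremal configurations. -/
theorem gram_structure (hx : ∀ j, ‖x j‖ = 1) :
    ∃ β : Fin N → Fin N, ∀ l j, ⟪x l, x j⟫_ℝ =
      if l = j then 1 else if β l = β j then -(((N : ℝ) - n) / n) else 0 := by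
  classical
  have hn' : (0 : ℝ) < n := by exact_mod_cast hn
  have hk : (0 : ℝ) < (N : ℝ) - n := by
    have : (n : ℝ) < N := by exact_mod_cast hN
    linarith
  have hNpos : (0 : ℝ) < N := by linarith
  choose φ hφr hφ using exists_partner hn hN F2 F3 hP ht F1 hx
  have hφ' : ∀ a l, ⟪x l, x (φ a)⟫_ℝ - ⟪x l, x (t a)⟫_ℝ =
      ((N : ℝ) / n) * ((if l = φ a then 1 else 0) - (if l = t a then 1 else 0)) := by
    intro a l
    rw [← hφ a l, inner_smul_right, inner_sub_right]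
    field_simp
  -- expansion in the dual basis
  have hexp : ∀ y, y = -∑ a, ⟪x (t a), y⟫_ℝ • (((n : ℝ) / N) • (x (φ a) - x (t a))) := by
    intro y
    have h1 := basis_separates hn hN F2 hP ht F1
      (y + ∑ a, ⟪x (t a), y⟫_ℝ • (((n : ℝ) / N) • (x (φ a) - x (t a)))) (fun b => by
        rw [inner_add_right, inner_sum]
        have h2 : ∀ a, ⟪x (t b), ⟪x (t a), y⟫_ℝ • (((n : ℝ) / N) • (x (φ a) - x (t a)))⟫_ℝ =
            if a = b then -⟪x (t b), y⟫_ℝ else 0 := by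
          intro a
          rw [inner_smul_right, hφ a (t b)]
          have h3 : t b ≠ φ a := fun h => hφr a ⟨b, h⟩
          by_cases h4 : a = b
          · subst h4; simp [h3]
          · have h5 : t b ≠ t a := fun h => h4 (ht h).symm
            simp [h3, h4, h5]
        simp_rw [h2]
        simp) hx
    exact eq_neg_of_add_eq_zero_left h1
  have horth : ∀ c c', c ∉ Set.range t → c' ∉ Set.range t → c ≠ c' → ⟪x c, x c'⟫_ℝ = 0 := by
    intro c c' hc hc' hne
    set g := ⟪x c, x c'⟫_ℝ with hg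
    have h1 : g = -∑ a, (if φ a = c then g else 0) := by
      have h2 : ∀ a, ⟪x c, ⟪x (t a), x c'⟫_ℝ • (((n : ℝ) / N) • (x (φ a) - x (t a)))⟫_ℝ =
          if φ a = c then g else 0 := by
        intro a
        rw [inner_smul_right, hφ a c]
        have h3 : c ≠ t a := fun h => hc ⟨a, h.symm⟩
        by_cases h4 : φ a = c
        · have h5 := hφ' a c'
          have h6 : c' ≠ φ a := fun h => hne (h4.symm.trans h.symm)
          have h7 : c' ≠ t a := fun h => hc' ⟨a, h.symm⟩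
          rw [if_neg h6, if_neg h7, sub_zero, mul_zero] at h5
          have h8 : ⟪x (t a), x c'⟫_ℝ = g := by
            rw [real_inner_comm, ← sub_eq_zero.1 h5, h4, hg, real_inner_comm]
          rw [h8, if_pos h4.symm, if_neg h3, if_pos h4]; ring
        · rw [if_neg (Ne.symm h4), if_neg h3, if_neg h4]; ring
      have h9 := congrArg (fun u => ⟪x c, u⟫_ℝ) (hexp (x c'))
      simp only [inner_neg_right, inner_sum] at h9
      simp_rw [h2] at h9
      exact h9
    rw [← Finset.sum_filter, Finset.sum_const, nsmul_eq_mul] at h1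
    have h3 : (0 : ℝ) ≤ ((univ.filter fun a => φ a = c).card : ℝ) := Nat.cast_nonneg _
    have h4 : g * (1 + ((univ.filter fun a => φ a = c).card : ℝ)) = 0 := by linarith
    rcases mul_eq_zero.1 h4 with h5 | h5
    · exact h5
    · linarith
  -- the block map
  let β : Fin N → Fin N := fun j => if h : ∃ a, t a = j then φ h.choose else j
  have hβr : ∀ j, β j ∉ Set.range t := by
    intro j
    by_cases h : ∃ a, t a = j
    · have : β j = φ h.choose := dif_pos h
      rw [this]; exact hφr _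
    · have : β j = j := dif_neg h
      rw [this]
      rintro ⟨a, ha⟩
      exact h ⟨a, ha⟩
  have hβ : ∀ j l, ⟪x l, x (β j)⟫_ℝ - ⟪x l, x j⟫_ℝ =
      ((N : ℝ) / n) * ((if l = β j then 1 else 0) - (if l = j then 1 else 0)) := by
    intro j l
    by_cases h : ∃ a, t a = j
    · have h1 : β j = φ h.choose := dif_pos h
      have h2 := hφ' h.choose l
      rw [h.choose_spec] at h2
      rw [h1]; exact h2
    · have h1 : β j = j := dif_neg h
      rw [h1]; ring
  refine ⟨β, fun l j => ?_⟩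
  have h1 := hβ j l
  have h2 := hβ l (β j)
  rw [real_inner_comm (x (β l)) (x (β j)), real_inner_comm (x l) (x (β j))] at h2
  have h3 : ⟪x (β l), x (β j)⟫_ℝ = if β l = β j then 1 else 0 := by
    by_cases h : β l = β j
    · rw [if_pos h, h, real_inner_self_eq_norm_sq, hx, one_pow]
    · rw [if_neg h]; exact horth _ _ (hβr l) (hβr j) h
  have h4 : ⟪x l, x j⟫_ℝ = (if β l = β j then 1 else 0) -
      ((N : ℝ) / n) * ((if β j = β l then 1 else 0) - (if l = j then 1 else 0)) := by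
    have h5 : (if β j = l then (1 : ℝ) else 0) = if l = β j then 1 else 0 := by
      simp [eq_comm]
    rw [h5] at h2
    rw [← h3]
    linarith
  rw [h4]
  by_cases h5 : l = j
  · subst h5; simp
  · by_cases h6 : β l = β j
    · simp only [h5, h6, if_true, if_false]
      field_simp
      ring
    · have h7 : β j ≠ β l := Ne.symm h6
      simp only [h5, h6, h7, if_false]
      ring

end

/-- **Equality case.**  If `N > n ≥ 1` unit vectors cover the sphere of `ℝⁿ` by caps with cosine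
`√(N-n)/n`, then their Gram matrix is that of mutually orthogonal regular simplices. -/
theorem equality_gram (x : Fin N → EuclideanSpace ℝ (Fin n)) (hx : ∀ j, ‖x j‖ = 1)
    (hn : 0 < n) (hN : n < N)
    (hcov : ∀ e : EuclideanSpace ℝ (Fin n), ‖e‖ = 1 → ∃ i, √((N : ℝ) - n) / n ≤ ⟪x i, e⟫_ℝ) :
    (∃ β : Fin N → Fin N, ∀ l j, ⟪x l, x j⟫_ℝ =
      if l = j then 1 else if β l = β j then -(((N : ℝ) - n) / n) else 0) ∧
    ∑ j, x j = 0 := by
  classical
  have hn' : (0 : ℝ) < n := by exact_mod_cast hn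
  have hk : (0 : ℝ) < (N : ℝ) - n := by
    have : (n : ℝ) < N := by exact_mod_cast hN
    linarith
  have hsq : 0 < √((N : ℝ) - n) := Real.sqrt_pos.2 hk
  have hcov' : ∀ y : EuclideanSpace ℝ (Fin n), y ≠ 0 →
      ∃ i, √((N : ℝ) - n) / n * ‖y‖ ≤ ⟪x i, y⟫_ℝ := by
    intro y hy
    have hyn : 0 < ‖y‖ := norm_pos_iff.2 hy
    obtain ⟨i, hi⟩ := hcov (‖y‖⁻¹ • y) (by
      rw [norm_smul, norm_inv, norm_norm, inv_mul_cancel₀ hyn.ne'])
    refine ⟨i, ?_⟩
    rw [inner_smul_right] at hi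
    have := mul_le_mul_of_nonneg_right hi hyn.le
    rw [mul_comm ‖y‖⁻¹, mul_assoc, inv_mul_cancel₀ hyn.ne', mul_one] at this
    exact this
  have hpos : ∀ y : EuclideanSpace ℝ (Fin n), y ≠ 0 → ∃ i, 0 < ⟪x i, y⟫_ℝ := by
    intro y hy
    obtain ⟨i, hi⟩ := hcov' y hy
    exact ⟨i, lt_of_lt_of_le (mul_pos (div_pos hsq hn') (norm_pos_iff.2 hy)) hi⟩
  have hP : ∀ y : EuclideanSpace ℝ (Fin n), (∀ i, ⟪x i, y⟫_ℝ ≤ 1) →
      ‖y‖ ^ 2 ≤ (n : ℝ) ^ 2 / ((N : ℝ) - n) := by
    intro y hy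
    by_cases hy0 : y = 0
    · rw [hy0, norm_zero, zero_pow two_ne_zero]
      exact div_nonneg (by positivity) hk.le
    · obtain ⟨i, hi⟩ := hcov' y hy0
      have h1 : √((N : ℝ) - n) / n * ‖y‖ ≤ 1 := hi.trans (hy i)
      have h2 : ‖y‖ ≤ n / √((N : ℝ) - n) := by
        rw [le_div_iff₀ hsq]
        have := mul_le_mul_of_nonneg_right h1 hn'.le
        have h3 : √((N : ℝ) - n) / n * ‖y‖ * n = ‖y‖ * √((N : ℝ) - n) := by field_simp
        rw [h3, one_mul] at this
        exact this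
      calc ‖y‖ ^ 2 ≤ (n / √((N : ℝ) - n)) ^ 2 := by gcongr
        _ = (n : ℝ) ^ 2 / ((N : ℝ) - n) := by rw [div_pow, Real.sq_sqrt hk.le]
  obtain ⟨p, v, h⟩ := exists_measE x hn hpos
  obtain ⟨F1, F2, F3⟩ := equality_data h hx hn hN (fun t ht => hP _ (h.feas t ht))
  have hex : ∃ t, p t ≠ 0 := by
    by_contra hc2
    push Not at hc2
    have := h.sum_one
    simp [hc2] at this
  obtain ⟨t, htp⟩ := hex
  exact ⟨gram_structure hn hN F2 F3 hP (h.inj t htp) (F1 t htp) hx, F3⟩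

end Pool.Agent.Helper66.CapCover
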