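import Mathlib
import Pool.Agent.Helper66.CapCover.Structure

/-!
# Unions of mutually orthogonal regular simplices
-/

set_option autoImplicit false

open Finset
open scoped InnerProductSpace

namespace Pool.Agent.Helper66.CapCover

section

variable {n k d : ℕ} (hn : n = k * d) (hk : 0 < k) (hd : 0 < d)
  {B : Fin k → Finset (EuclideanSpace ℝ (Fin n))}
  (hcard : ∀ c, (B c).card = d + 1) (hunit : ∀ c, ∀ x ∈ B c, ‖x‖ = 1)
  (hin : ∀ c, ∀ x ∈ B c, ∀ y ∈ B c, x ≠ y → ⟪x, y⟫_ℝ = -(1 / (d : ℝ)))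
  (hcross : ∀ c c', c ≠ c' → ∀ x ∈ B c, ∀ y ∈ B c', ⟪x, y⟫_ℝ = 0)

include hunit hin in
theorem block_inner (c : Fin k) (a : EuclideanSpace ℝ (Fin n) → ℝ) :
    ⟪∑ x ∈ B c, a x • x, ∑ y ∈ B c, a y • y⟫_ℝ =
      (1 + 1 / (d : ℝ)) * ∑ x ∈ B c, a x ^ 2 - (1 / (d : ℝ)) * (∑ x ∈ B c, a x) ^ 2 := by
  classical
  rw [sum_inner]
  have h1 : ∀ x ∈ B c, ⟪a x • x, ∑ y ∈ B c, a y • y⟫_ℝ =
      (1 + 1 / (d : ℝ)) * a x ^ 2 - (1 / (d : ℝ)) * (a x * ∑ y ∈ B c, a y) := by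
    intro x hx
    rw [inner_sum]
    have h2 : ∀ y ∈ B c, ⟪a x • x, a y • y⟫_ℝ =
        (if x = y then (1 + 1 / (d : ℝ)) * a x ^ 2 else 0) - (1 / (d : ℝ)) * (a x * a y) := by
      intro y hy
      rw [inner_smul_left, inner_smul_right]
      by_cases h : x = y
      · subst h
        rw [real_inner_self_eq_norm_sq, hunit c x hx]
        simp
        ring
      · rw [hin c x hx y hy h]
        simp [h]
        ring
    rw [Finset.sum_congr rfl h2, Finset.sum_sub_distrib, Finset.sum_ite_eq, if_pos hx,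
      ← Finset.mul_sum, ← Finset.mul_sum]
  rw [Finset.sum_congr rfl h1, Finset.sum_sub_distrib, ← Finset.mul_sum, ← Finset.mul_sum,
    ← Finset.sum_mul]
  ring

include hcross in
theorem total_inner (a : EuclideanSpace ℝ (Fin n) → ℝ) :
    ⟪∑ c, ∑ x ∈ B c, a x • x, ∑ c, ∑ y ∈ B c, a y • y⟫_ℝ =
      ∑ c, ⟪∑ x ∈ B c, a x • x, ∑ y ∈ B c, a y • y⟫_ℝ := by
  classical
  rw [sum_inner]
  apply Finset.sum_congr rfl
  intro c _
  rw [inner_sum]
  apply Finset.sum_eq_single c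
  · intro c' _ hne
    rw [sum_inner]
    apply Finset.sum_eq_zero
    intro x hx
    rw [inner_sum]
    apply Finset.sum_eq_zero
    intro y hy
    rw [inner_smul_left, inner_smul_right, hcross c c' hne.symm x hx y hy]
    simp
  · intro h; exact absurd (mem_univ _) h

include hunit hin hcard hd in
theorem block_sum_zero (c : Fin k) : ∑ x ∈ B c, x = 0 := by
  have h1 := block_inner hunit hin c (fun _ => 1)
  simp only [one_smul, one_pow, Finset.sum_const, hcard c, nsmul_eq_mul, mul_one] at h1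
  have hd' : (0 : ℝ) < d := by exact_mod_cast hd
  have h2 : (1 + 1 / (d : ℝ)) * ((d + 1 : ℕ) : ℝ) - (1 / (d : ℝ)) * (((d + 1 : ℕ) : ℝ)) ^ 2 = 0 := by
    push_cast
    field_simp
    ring
  rw [h2] at h1
  exact inner_self_eq_zero.1 h1

include hn hk hd hcard hunit hin hcross in
theorem sum_sq_inner (y : EuclideanSpace ℝ (Fin n)) :
    ∑ c, ∑ x ∈ B c, ⟪x, y⟫_ℝ ^ 2 = (1 + 1 / (d : ℝ)) * ‖y‖ ^ 2 := by
  classical
  have hd' : (0 : ℝ) < d := by exact_mod_cast hd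
  have hk' : (0 : ℝ) < k := by exact_mod_cast hk
  set lam : ℝ := 1 + 1 / (d : ℝ) with hlam
  have hlampos : 0 < lam := by positivity
  let T : EuclideanSpace ℝ (Fin n) → EuclideanSpace ℝ (Fin n) :=
    fun y => ∑ c, ∑ x ∈ B c, ⟪x, y⟫_ℝ • x
  have hTT : ∀ y, ‖T y‖ ^ 2 ≤ lam * ∑ c, ∑ x ∈ B c, ⟪x, y⟫_ℝ ^ 2 := by
    intro y
    rw [← real_inner_self_eq_norm_sq]
    change ⟪∑ c, ∑ x ∈ B c, ⟪x, y⟫_ℝ • x, ∑ c, ∑ x ∈ B c, ⟪x, y⟫_ℝ • x⟫_ℝ ≤ _
    rw [total_inner hcross (fun x => ⟪x, y⟫_ℝ), Finset.mul_sum]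
    apply Finset.sum_le_sum
    intro c _
    rw [block_inner hunit hin c]
    have : 0 ≤ (1 / (d : ℝ)) * (∑ x ∈ B c, ⟪x, y⟫_ℝ) ^ 2 := by positivity
    linarith
  have hTy : ∀ y, ⟪T y, y⟫_ℝ = ∑ c, ∑ x ∈ B c, ⟪x, y⟫_ℝ ^ 2 := by
    intro y
    change ⟪∑ c, ∑ x ∈ B c, ⟪x, y⟫_ℝ • x, y⟫_ℝ = _
    rw [sum_inner]
    apply Finset.sum_congr rfl
    intro c _
    rw [sum_inner]
    apply Finset.sum_congr rfl
    intro x _
    rw [inner_smul_left, sq]
    simp
  -- upper bound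
  have hup : ∀ y, ‖y‖ = 1 → ∑ c, ∑ x ∈ B c, ⟪x, y⟫_ℝ ^ 2 ≤ lam := by
    intro y hy
    have h1 := hTT y
    rw [← hTy] at h1 ⊢
    have h2 : ⟪T y, y⟫_ℝ ≤ ‖T y‖ := by
      have := real_inner_le_norm (T y) y
      rwa [hy, mul_one] at this
    have h3 : ‖T y‖ ^ 2 ≤ lam * ‖T y‖ := h1.trans (mul_le_mul_of_nonneg_left h2 hlampos.le)
    have h4 : ‖T y‖ ≤ lam := by
      by_contra hc
      push Not at hc
      nlinarith [norm_nonneg (T y)]
    exact h2.trans h4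
  -- trace
  let e := EuclideanSpace.basisFun (Fin n) ℝ
  have htr : ∑ a, ∑ c, ∑ x ∈ B c, ⟪x, e a⟫_ℝ ^ 2 = ∑ _a : Fin n, lam := by
    rw [Finset.sum_comm]
    have h1 : ∀ c, ∑ a, ∑ x ∈ B c, ⟪x, e a⟫_ℝ ^ 2 = (d : ℝ) + 1 := by
      intro c
      rw [Finset.sum_comm]
      have h2 : ∀ x ∈ B c, ∑ a, ⟪x, e a⟫_ℝ ^ 2 = 1 := by
        intro x hx
        have h3 := e.sum_sq_norm_inner_right x
        rw [hunit c x hx] at h3
        rw [show (1 : ℝ) = 1 ^ 2 by norm_num, ← h3]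
        apply Finset.sum_congr rfl
        intro a _
        rw [Real.norm_eq_abs, sq_abs, real_inner_comm]
      rw [Finset.sum_congr rfl h2, Finset.sum_const, hcard c]
      simp
    simp_rw [h1]
    simp only [Finset.sum_const, Finset.card_univ, Fintype.card_fin, nsmul_eq_mul]
    rw [hlam]
    have : (n : ℝ) = k * d := by rw [hn]; push_cast; ring
    rw [this]
    field_simp
  have hea : ∀ a, ∑ c, ∑ x ∈ B c, ⟪x, e a⟫_ℝ ^ 2 = lam := by
    have h1 := (Finset.sum_eq_sum_iff_of_le (fun a _ => hup (e a) (e.norm_eq_one a))).1 htr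
    exact fun a => h1 a (mem_univ a)
  have hTe : ∀ a, T (e a) = lam • e a := by
    intro a
    have h1 : ‖T (e a) - lam • e a‖ ^ 2 ≤ 0 := by
      rw [norm_sub_sq_real, inner_smul_right, norm_smul, e.norm_eq_one, mul_one, Real.norm_eq_abs,
        sq_abs, hTy, hea]
      have := hTT (e a)
      rw [hea] at this
      linarith
    have h2 : ‖T (e a) - lam • e a‖ = 0 := by
      have := sq_nonneg ‖T (e a) - lam • e a‖
      have h3 : ‖T (e a) - lam • e a‖ ^ 2 = 0 := le_antisymm h1 this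
      simpa using h3
    exact sub_eq_zero.1 (norm_eq_zero.1 h2)
  -- symmetric bilinear form
  have hsym : ∀ y z, ⟪T y, z⟫_ℝ = ⟪y, T z⟫_ℝ := by
    intro y z
    change ⟪∑ c, ∑ x ∈ B c, ⟪x, y⟫_ℝ • x, z⟫_ℝ = ⟪y, ∑ c, ∑ x ∈ B c, ⟪x, z⟫_ℝ • x⟫_ℝ
    rw [sum_inner, inner_sum]
    apply Finset.sum_congr rfl
    intro c _
    rw [sum_inner, inner_sum]
    apply Finset.sum_congr rfl
    intro x _
    rw [inner_smul_left, inner_smul_right, real_inner_comm x y]
    simp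
    ring
  rw [← hTy]
  have h1 : T y = lam • y := by
    have h2 : ∀ a, ⟪e a, T y⟫_ℝ = ⟪e a, lam • y⟫_ℝ := by
      intro a
      rw [← hsym, hTe a, inner_smul_left, inner_smul_right]
      simp
    calc T y = ∑ a, ⟪e a, T y⟫_ℝ • e a := (e.sum_repr' (T y)).symm
      _ = ∑ a, ⟪e a, lam • y⟫_ℝ • e a := Finset.sum_congr rfl fun a _ => by rw [h2 a]
      _ = lam • y := e.sum_repr' _
  rw [h1, inner_smul_left, real_inner_self_eq_norm_sq]
  simp

include hn hk hd hcard hunit hin hcross in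
/-- A union of `k` mutually orthogonal regular `d`-simplices covers with cosine `√k/n`. -/
theorem union_covers (y : EuclideanSpace ℝ (Fin n)) (hy : ‖y‖ = 1) :
    ∃ c, ∃ x ∈ B c, √(k : ℝ) / n ≤ ⟪x, y⟫_ℝ := by
  classical
  have hd' : (0 : ℝ) < d := by exact_mod_cast hd
  have hk' : (0 : ℝ) < k := by exact_mod_cast hk
  have hnr : (n : ℝ) = k * d := by rw [hn]; push_cast; ring
  by_contra hcon
  push Not at hcon
  set τ : ℝ := √(k : ℝ) / n with hτ
  have hτ2 : τ ^ 2 = k / (k * d) ^ 2 := by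
    rw [hτ, div_pow, Real.sq_sqrt hk'.le, hnr]
  have h1 := sum_sq_inner hn hk hd hcard hunit hin hcross y
  rw [hy] at h1
  have h2 : ∀ c, ∑ x ∈ B c, ⟪x, y⟫_ℝ ^ 2 < d * (d + 1) * τ ^ 2 := by
    intro c
    have hs0 : ∑ x ∈ B c, ⟪x, y⟫_ℝ = 0 := by
      rw [← sum_inner, block_sum_zero hd hcard hunit hin c, inner_zero_left]
    have hu : ∀ x ∈ B c, 0 < τ - ⟪x, y⟫_ℝ := fun x hx => sub_pos.2 (hcon c x hx)
    have hsu : ∑ x ∈ B c, (τ - ⟪x, y⟫_ℝ) = (d + 1) * τ := by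
      rw [Finset.sum_sub_distrib, hs0, Finset.sum_const, hcard c]
      simp
    have hlt : ∀ x ∈ B c, τ - ⟪x, y⟫_ℝ < (d + 1) * τ := by
      intro x hx
      rw [← hsu]
      obtain ⟨z, hz, hzx⟩ := Finset.exists_mem_ne (by rw [hcard c]; omega) x
      exact Finset.single_lt_sum hzx hx hz (hu z hz) (fun w hw _ => (hu w hw).le)
    have hne : (B c).Nonempty := by
      rw [← Finset.card_pos, hcard c]; omega
    have hsq : ∑ x ∈ B c, (τ - ⟪x, y⟫_ℝ) ^ 2 < ((d + 1) * τ) ^ 2 := by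
      calc ∑ x ∈ B c, (τ - ⟪x, y⟫_ℝ) ^ 2 < ∑ x ∈ B c, (τ - ⟪x, y⟫_ℝ) * ((d + 1) * τ) := by
            apply Finset.sum_lt_sum_of_nonempty hne
            intro x hx
            rw [sq]
            exact mul_lt_mul_of_pos_left (hlt x hx) (hu x hx)
        _ = ((d + 1) * τ) ^ 2 := by rw [← Finset.sum_mul, hsu]; ring
    have hexp : ∑ x ∈ B c, ⟪x, y⟫_ℝ ^ 2 = ∑ x ∈ B c, (τ - ⟪x, y⟫_ℝ) ^ 2 - (d + 1) * τ ^ 2 := by
      have h3 : ∀ x ∈ B c, ⟪x, y⟫_ℝ ^ 2 = (τ - ⟪x, y⟫_ℝ) ^ 2 + 2 * τ * ⟪x, y⟫_ℝ - τ ^ 2 := by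
        intro x _; ring
      rw [Finset.sum_congr rfl h3, Finset.sum_sub_distrib, Finset.sum_add_distrib, ← Finset.mul_sum,
        hs0, Finset.sum_const, hcard c]
      simp
    rw [hexp]
    nlinarith
  have : Nonempty (Fin k) := ⟨⟨0, hk⟩⟩
  have h3 : ∑ c, ∑ x ∈ B c, ⟪x, y⟫_ℝ ^ 2 < ∑ _c : Fin k, d * (d + 1) * τ ^ 2 :=
    Finset.sum_lt_sum_of_nonempty univ_nonempty fun c _ => h2 c
  rw [h1] at h3
  simp only [Finset.sum_const, Finset.card_univ, Fintype.card_fin, nsmul_eq_mul] at h3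
  rw [hτ2] at h3
  have h4 : (k : ℝ) * (d * (d + 1) * (k / (k * d) ^ 2)) = (1 + 1 / (d : ℝ)) * 1 ^ 2 := by
    field_simp
  rw [h4] at h3
  exact lt_irrefl _ h3

end

/-- From the Gram matrix to blocks. -/
theorem blocks_of_gram {n k : ℕ} (hk : 0 < k) (hn : 0 < n)
    (x : Fin (n + k) → EuclideanSpace ℝ (Fin n)) (hx : ∀ j, ‖x j‖ = 1)
    (β : Fin (n + k) → Fin (n + k)) (hG : ∀ l j, ⟪x l, x j⟫_ℝ =
      if l = j then 1 else if β l = β j then -((k : ℝ) / n) else 0) (hsum : ∑ j, x j = 0) :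
    k ∣ n ∧ ∃ B : Fin k → Finset (EuclideanSpace ℝ (Fin n)),
      (∀ c, (B c).card = n / k + 1) ∧ (∀ c, ∀ z ∈ B c, ‖z‖ = 1) ∧
      (∀ c, ∀ z ∈ B c, ∀ w ∈ B c, z ≠ w → ⟪z, w⟫_ℝ = -((k : ℝ) / n)) ∧
      (∀ c c', c ≠ c' → ∀ z ∈ B c, ∀ w ∈ B c', ⟪z, w⟫_ℝ = 0) ∧
      univ.image x = univ.biUnion B := by
  classical
  have hk' : (0 : ℝ) < k := by exact_mod_cast hk
  have hn' : (0 : ℝ) < n := by exact_mod_cast hn
  have hinj : Function.Injective x := by
    intro l j hlj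
    by_contra hne
    have h1 := hG l j
    rw [if_neg hne, hlj, real_inner_self_eq_norm_sq, hx] at h1
    have h2 : 0 < (k : ℝ) / n := by positivity
    split_ifs at h1
    · linarith
    · norm_num at h1
  -- fibres
  have hfib : ∀ l, k * ((univ.filter fun j => β j = β l).card) = n + k := by
    intro l
    have h1 : ∑ j, ⟪x l, x j⟫_ℝ = 0 := by rw [← inner_sum, hsum, inner_zero_right]
    have h2 : ∀ j, ⟪x l, x j⟫_ℝ = (1 + (k : ℝ) / n) * (if j = l then (1 : ℝ) else 0) -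
        ((k : ℝ) / n) * (if β j = β l then 1 else 0) := by
      intro j
      rw [hG l j]
      by_cases h3 : l = j
      · subst h3; simp
      · have h3' : j ≠ l := Ne.symm h3
        by_cases h4 : β l = β j
        · simp [h3, h3', h4]
        · have h4' : β j ≠ β l := Ne.symm h4
          simp [h3, h3', h4, h4']
    simp_rw [h2] at h1
    rw [Finset.sum_sub_distrib, ← Finset.mul_sum, ← Finset.mul_sum] at h1
    simp only [Finset.sum_ite_eq', Finset.mem_univ, if_true, Finset.sum_boole] at h1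
    have h5 : (k : ℝ) * ((univ.filter fun j => β j = β l).card : ℝ) = n + k := by
      field_simp at h1
      linarith
    exact_mod_cast h5
  have hdvd : k ∣ n := by
    have h1 := hfib ⟨0, by omega⟩
    have h2 : k ∣ n + k := ⟨_, h1.symm⟩
    exact (Nat.dvd_add_left (dvd_refl k)).1 h2
  obtain ⟨d, hd⟩ := hdvd
  have hnk : n / k = d := by rw [hd]; exact Nat.mul_div_cancel_left d hk
  have hfib' : ∀ l, (univ.filter fun j => β j = β l).card = d + 1 := by
    intro l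
    have h3 : n + k = k * (d + 1) := by rw [hd]; ring
    exact Nat.eq_of_mul_eq_mul_left hk ((hfib l).trans h3)
  let R : Finset (Fin (n + k)) := univ.image β
  have hR : R.card = k := by
    have h1 : (univ : Finset (Fin (n + k))).card =
        ∑ r ∈ R, (univ.filter fun j => β j = r).card :=
      Finset.card_eq_sum_card_fiberwise
        (fun j _ => Finset.mem_coe.2 (Finset.mem_image_of_mem β (mem_univ j)))
    have h2 : ∀ r ∈ R, (univ.filter fun j => β j = r).card = d + 1 := by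
      intro r hr
      obtain ⟨l, -, rfl⟩ := Finset.mem_image.1 hr
      exact hfib' l
    rw [Finset.sum_congr rfl h2, Finset.sum_const, card_univ, Fintype.card_fin, smul_eq_mul] at h1
    have h4 : n + k = k * (d + 1) := by rw [hd]; ring
    exact Nat.eq_of_mul_eq_mul_right (Nat.succ_pos d) (h1.symm.trans h4)
  let eR : Fin k ≃ R := (R.equivFinOfCardEq hR).symm
  refine ⟨⟨d, hd⟩, fun c => (univ.filter fun j => β j = (eR c : Fin (n + k))).image x,
    ?_, ?_, ?_, ?_, ?_⟩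
  · intro c
    rw [Finset.card_image_of_injective _ hinj, hnk]
    obtain ⟨l, -, hl⟩ := Finset.mem_image.1 (eR c).2
    rw [← hl]
    exact hfib' l
  · intro c z hz
    obtain ⟨j, -, rfl⟩ := Finset.mem_image.1 hz
    exact hx j
  · intro c z hz w hw hne
    obtain ⟨j, hj, rfl⟩ := Finset.mem_image.1 hz
    obtain ⟨l, hl, rfl⟩ := Finset.mem_image.1 hw
    have hjl : j ≠ l := fun h => hne (by rw [h])
    rw [hG, if_neg hjl, if_pos ((Finset.mem_filter.1 hj).2.trans (Finset.mem_filter.1 hl).2.symm)]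
  · intro c c' hne z hz w hw
    obtain ⟨j, hj, rfl⟩ := Finset.mem_image.1 hz
    obtain ⟨l, hl, rfl⟩ := Finset.mem_image.1 hw
    have h1 : β j ≠ β l := by
      rw [(Finset.mem_filter.1 hj).2, (Finset.mem_filter.1 hl).2]
      intro h
      exact hne (eR.injective (Subtype.ext h))
    have hjl : j ≠ l := fun h => h1 (by rw [h])
    rw [hG, if_neg hjl, if_neg h1]
  · ext z
    simp only [Finset.mem_image, Finset.mem_univ, true_and, Finset.mem_biUnion, Finset.mem_filter]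
    constructor
    · rintro ⟨j, rfl⟩
      refine ⟨eR.symm ⟨β j, Finset.mem_image_of_mem β (mem_univ j)⟩, j, ?_, rfl⟩
      rw [Equiv.apply_symm_apply]
    · rintro ⟨c, j, -, rfl⟩
      exact ⟨j, rfl⟩

end Pool.Agent.Helper66.CapCover
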