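import Mathlib

/-!
# Existence of an optimal family, by compactness
-/

set_option autoImplicit false

open Finset
open scoped InnerProductSpace

namespace Pool.Agent.Helper66.CapCover

theorem exists_optimal (n N : ℕ) (hn : 0 < n) (hN : 0 < N) :
    ∃ (x : Fin N → EuclideanSpace ℝ (Fin n)) (c : ℝ), (∀ i, ‖x i‖ = 1) ∧ -1 ≤ c ∧ c ≤ 1 ∧
      (∀ y : EuclideanSpace ℝ (Fin n), ‖y‖ = 1 → ∃ i, c ≤ ⟪x i, y⟫_ℝ) ∧
      ∀ (x' : Fin N → EuclideanSpace ℝ (Fin n)) (c' : ℝ), (∀ i, ‖x' i‖ = 1) →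
        (∀ y : EuclideanSpace ℝ (Fin n), ‖y‖ = 1 → ∃ i, c' ≤ ⟪x' i, y⟫_ℝ) → c' ≤ c := by
  classical
  obtain ⟨u0, hu0⟩ : ∃ u0 : EuclideanSpace ℝ (Fin n), ‖u0‖ = 1 :=
    ⟨EuclideanSpace.basisFun (Fin n) ℝ ⟨0, hn⟩, (EuclideanSpace.basisFun (Fin n) ℝ).norm_eq_one _⟩
  let E := EuclideanSpace ℝ (Fin n)
  let S : Set ((Fin N → E) × ℝ) :=
    {q | (∀ i, ‖q.1 i‖ = 1) ∧ q.2 ∈ Set.Icc (-1 : ℝ) 1 ∧
      ∀ y : E, ‖y‖ = 1 → ∃ i, q.2 ≤ ⟪q.1 i, y⟫_ℝ}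
  have hclosed : IsClosed S := by
    have h1 : IsClosed {q : (Fin N → E) × ℝ | ∀ i, ‖q.1 i‖ = 1} := by
      rw [Set.ofPred_forall]
      exact isClosed_iInter fun i => isClosed_eq
        (((continuous_apply i).comp continuous_fst).norm) continuous_const
    have h2 : IsClosed {q : (Fin N → E) × ℝ | q.2 ∈ Set.Icc (-1 : ℝ) 1} :=
      isClosed_Icc.preimage continuous_snd
    have h3 : IsClosed {q : (Fin N → E) × ℝ | ∀ y : E, ‖y‖ = 1 → ∃ i, q.2 ≤ ⟪q.1 i, y⟫_ℝ} := by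
      simp only [Set.ofPred_forall]
      refine isClosed_iInter fun y => isClosed_iInter fun _ => ?_
      have : {q : (Fin N → E) × ℝ | ∃ i, q.2 ≤ ⟪q.1 i, y⟫_ℝ} =
          ⋃ i, {q : (Fin N → E) × ℝ | q.2 ≤ ⟪q.1 i, y⟫_ℝ} := by
        ext q; simp
      rw [this]
      exact isClosed_iUnion_of_finite fun i => isClosed_le continuous_snd
        (((continuous_apply i).comp continuous_fst).inner continuous_const)
    exact (h1.inter (h2.inter h3))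
  have hcompact : IsCompact S := by
    have hK : IsCompact ((Metric.closedBall (0 : Fin N → E) 1) ×ˢ (Set.Icc (-1 : ℝ) 1)) :=
      (isCompact_closedBall _ _).prod isCompact_Icc
    refine hK.of_isClosed_subset hclosed ?_
    rintro ⟨x, c⟩ ⟨h1, h2, -⟩
    refine ⟨?_, h2⟩
    rw [mem_closedBall_zero_iff, pi_norm_le_iff_of_nonneg zero_le_one]
    exact fun i => (h1 i).le
  have hne : S.Nonempty := by
    refine ⟨(fun _ => u0, -1), fun i => hu0, by simp, ?_⟩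
    intro y hy
    refine ⟨⟨0, hN⟩, ?_⟩
    have h1 := abs_real_inner_le_norm u0 y
    rw [hy, mul_one, hu0] at h1
    exact (abs_le.1 h1).1
  obtain ⟨⟨x, c⟩, ⟨hx1, hx2, hx3⟩, hmax⟩ := hcompact.exists_isMaxOn hne
    continuous_snd.continuousOn
  refine ⟨x, c, hx1, hx2.1, hx2.2, hx3, ?_⟩
  intro x' c' hx' hc'
  by_cases h : -1 ≤ c'
  · have h1 : c' ≤ 1 := by
      obtain ⟨i, hi⟩ := hc' u0 hu0
      calc c' ≤ ⟪x' i, u0⟫_ℝ := hi
        _ ≤ ‖x' i‖ * ‖u0‖ := real_inner_le_norm _ _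
        _ = 1 := by rw [hx', hu0, mul_one]
    have h2 : ((x', c') : (Fin N → E) × ℝ) ∈ S := ⟨hx', ⟨h, h1⟩, hc'⟩
    exact hmax h2
  · exact (not_le.1 h).le.trans hx2.1

end Pool.Agent.Helper66.CapCover
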