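import Mathlib
import Pool.Agent.Helper66.CapCover.Structure

/-!
# The cross-polytope
-/

set_option autoImplicit false

open Finset
open scoped InnerProductSpace

namespace Pool.Agent.Helper66.CapCover

variable {n N : ℕ}

theorem eq_neg_of_inner {E : Type} [NormedAddCommGroup E] [InnerProductSpace ℝ E] {a b : E}
    (ha : ‖a‖ = 1) (hb : ‖b‖ = 1) (h : ⟪a, b⟫_ℝ = -1) : a = -b := by
  have h1 : ‖a + b‖ ^ 2 = 0 := by
    rw [norm_add_sq_real, ha, hb, h]; norm_num
  have h2 : ‖a + b‖ = 0 := by simpa using h1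
  exact eq_neg_of_add_eq_zero_left (norm_eq_zero.1 h2)

theorem cross_of_gram (x : Fin N → EuclideanSpace ℝ (Fin n)) (hx : ∀ j, ‖x j‖ = 1)
    (β : Fin N → Fin N) (hG : ∀ l j, ⟪x l, x j⟫_ℝ =
      if l = j then 1 else if β l = β j then -1 else 0) (hsum : ∑ j, x j = 0)
    (hN : N = 2 * n) :
    ∃ b : OrthonormalBasis (Fin n) ℝ (EuclideanSpace ℝ (Fin n)),
      Set.range x = Set.range (fun j => b j) ∪ Set.range (fun j => -b j) := by
  classical
  -- fibres have exactly two elements
  have hfib : ∀ l, (univ.filter fun j => β j = β l).card = 2 := by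
    intro l
    have h1 : ∑ j, ⟪x l, x j⟫_ℝ = 0 := by rw [← inner_sum, hsum, inner_zero_right]
    have h2 : ∀ j, ⟪x l, x j⟫_ℝ = 2 * (if j = l then (1 : ℝ) else 0) -
        (if β j = β l then 1 else 0) := by
      intro j
      rw [hG l j]
      by_cases h3 : l = j
      · subst h3; norm_num
      · have h3' : j ≠ l := Ne.symm h3
        by_cases h4 : β l = β j
        · simp [h3, h3', h4]
        · have h4' : β j ≠ β l := Ne.symm h4
          simp [h3, h3', h4, h4']
    simp_rw [h2] at h1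
    rw [Finset.sum_sub_distrib, ← Finset.mul_sum] at h1
    simp only [Finset.sum_ite_eq', Finset.mem_univ, if_true, Finset.sum_boole] at h1
    have h5 : ((univ.filter fun j => β j = β l).card : ℝ) = 2 := by linarith
    exact_mod_cast h5
  -- partner
  have hpart : ∀ l, ∃ j, j ≠ l ∧ β j = β l := by
    intro l
    have h1 : 1 < (univ.filter fun j => β j = β l).card := by rw [hfib l]; norm_num
    obtain ⟨j, hj, hne⟩ := Finset.exists_mem_ne h1 l
    exact ⟨j, hne, by simpa using hj⟩
  -- number of blocks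
  let R : Finset (Fin N) := univ.image β
  have hR : R.card = n := by
    have h1 : (univ : Finset (Fin N)).card = ∑ r ∈ R, (univ.filter fun j => β j = r).card :=
      Finset.card_eq_sum_card_fiberwise (fun j _ => Finset.mem_coe.2 (Finset.mem_image_of_mem β (mem_univ j)))
    have h2 : ∀ r ∈ R, (univ.filter fun j => β j = r).card = 2 := by
      intro r hr
      obtain ⟨l, -, rfl⟩ := Finset.mem_image.1 hr
      exact hfib l
    rw [Finset.sum_congr rfl h2, Finset.sum_const, card_univ, Fintype.card_fin, smul_eq_mul] at h1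
    omega
  let eR : R ≃ Fin n := R.equivFinOfCardEq hR
  have hrep : ∀ r : R, ∃ j, β j = r := fun r => by
    obtain ⟨l, -, hl⟩ := Finset.mem_image.1 r.2
    exact ⟨l, hl⟩
  choose rep hrepr using hrep
  let f : Fin n → EuclideanSpace ℝ (Fin n) := fun a => x (rep (eR.symm a))
  have hf : Orthonormal ℝ f := by
    constructor
    · intro a; exact hx _
    · intro a a' hne
      change ⟪x (rep (eR.symm a)), x (rep (eR.symm a'))⟫_ℝ = 0
      rw [hG]
      have h1 : β (rep (eR.symm a)) ≠ β (rep (eR.symm a')) := by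
        rw [hrepr, hrepr]
        intro h
        exact hne (eR.symm.injective (Subtype.ext h))
      have h2 : rep (eR.symm a) ≠ rep (eR.symm a') := fun h => h1 (by rw [h])
      rw [if_neg h2, if_neg h1]
  obtain ⟨b, hb⟩ := Orthonormal.exists_orthonormalBasis_extension_of_card_eq
    (𝕜 := ℝ) (E := EuclideanSpace ℝ (Fin n)) (ι := Fin n) (by simp) (v := f) (s := Set.univ)
    (by
      have := hf.comp (fun i : (Set.univ : Set (Fin n)) => (i : Fin n)) Subtype.val_injective
      exact this)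
  have hb' : ∀ a, b a = x (rep (eR.symm a)) := fun a => hb a (Set.mem_univ a)
  refine ⟨b, ?_⟩
  ext y
  constructor
  · rintro ⟨l, rfl⟩
    let r : R := ⟨β l, Finset.mem_image_of_mem β (mem_univ l)⟩
    have hr : β (rep r) = β l := hrepr r
    by_cases h : l = rep r
    · left
      refine ⟨eR r, ?_⟩
      change b (eR r) = x l
      rw [hb', Equiv.symm_apply_apply, ← h]
    · right
      refine ⟨eR r, ?_⟩
      change -b (eR r) = x l
      rw [hb', Equiv.symm_apply_apply]
      symm
      apply eq_neg_of_inner (hx _) (hx _)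
      rw [hG, if_neg h, if_pos hr.symm]
  · rintro (⟨a, rfl⟩ | ⟨a, rfl⟩)
    · exact ⟨rep (eR.symm a), (hb' a).symm⟩
    · obtain ⟨j, hj, hβj⟩ := hpart (rep (eR.symm a))
      refine ⟨j, ?_⟩
      change x j = -b a
      rw [hb']
      apply eq_neg_of_inner (hx _) (hx _)
      rw [hG, if_neg hj, if_pos hβj]

/-- The caps of cosine `1/√n` around `±e_i` cover the sphere. -/
theorem cross_covers (n : ℕ) (hn : 0 < n) :
    ∃ g : Fin (2 * n) → EuclideanSpace ℝ (Fin n), (∀ i, ‖g i‖ = 1) ∧
      ∀ y : EuclideanSpace ℝ (Fin n), ‖y‖ = 1 → ∃ i, √(n : ℝ) / n ≤ ⟪g i, y⟫_ℝ := by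
  classical
  let e := EuclideanSpace.basisFun (Fin n) ℝ
  let g : Fin (2 * n) → EuclideanSpace ℝ (Fin n) := fun i =>
    if h : (i : ℕ) < n then e ⟨i, h⟩ else -e ⟨(i : ℕ) - n, by omega⟩
  have hg1 : ∀ j : Fin n, g ⟨j, by omega⟩ = e j := by
    intro j
    simp only [g]
    rw [dif_pos j.2]
  have hg2 : ∀ j : Fin n, g ⟨n + j, by omega⟩ = -e j := by
    intro j
    simp only [g]
    rw [dif_neg (by simp)]
    congr 2
    ext
    simp
  refine ⟨g, ?_, ?_⟩
  · intro i
    simp only [g]
    split_ifs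
    · exact e.norm_eq_one _
    · rw [norm_neg]; exact e.norm_eq_one _
  · intro y hy
    have hn' : (0 : ℝ) < n := by exact_mod_cast hn
    have h1 : ∑ _j : Fin n, (1 / (n : ℝ)) ≤ ∑ j, ‖⟪e j, y⟫_ℝ‖ ^ 2 := by
      rw [e.sum_sq_norm_inner_right y, hy]
      simp only [Finset.sum_const, Finset.card_univ, Fintype.card_fin, nsmul_eq_mul]
      rw [mul_one_div_cancel hn'.ne']; norm_num
    have : Nonempty (Fin n) := ⟨⟨0, hn⟩⟩
    obtain ⟨j, -, hj⟩ := Finset.exists_le_of_sum_le (univ_nonempty) h1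
    have h2 : √(n : ℝ) / n ≤ |⟪e j, y⟫_ℝ| := by
      apply le_of_sq_le_sq _ (abs_nonneg _)
      rw [Real.norm_eq_abs] at hj
      calc (√(n : ℝ) / n) ^ 2 = 1 / n := by
            rw [div_pow, Real.sq_sqrt hn'.le]; field_simp
        _ ≤ _ := hj
    rcases le_total 0 ⟪e j, y⟫_ℝ with h | h
    · rw [abs_of_nonneg h] at h2
      exact ⟨⟨j, by omega⟩, by rw [hg1 j]; exact h2⟩
    · rw [abs_of_nonpos h] at h2
      exact ⟨⟨n + j, by omega⟩, by rw [hg2 j, inner_neg_left]; exact h2⟩

end Pool.Agent.Helper66.CapCover
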